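import Pool.Agent.R735.HA.Trans
import Pool.Agent.H864R3.Chern3

/-!
# The double alternating sum of a tensor which is block diagonal for a splitting 3 + 3
-/

set_option autoImplicit false

namespace Pool.Agent.N256.UR

open Finset Pool.Agent.TH598.GV Pool.Agent.R735.HA
open scoped ComplexConjugate

/-- six indices in two triples -/
abbrev J6 : Type := Fin 3 × Bool

/-- pairs of indices -/
abbrev P2 : Type := J6 × J6

/-- the map with given pairs of values -/
def fr (X : Fin 3 → P2) : J6 → J6 := fun x => if x.2 then (X x.1).2 else (X x.1).1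

/-- the sign of a map given by three pairs -/
noncomputable def d3 (a b c : P2) : ℂ :=
  ((1 : Matrix J6 J6 ℂ).submatrix (fr ![a, b, c]) id).det

lemma det_one_comp (φ : J6 → J6) (π : Equiv.Perm J6) :
    ((1 : Matrix J6 J6 ℂ).submatrix (φ ∘ π) id).det =
      cs π * ((1 : Matrix J6 J6 ℂ).submatrix φ id).det := by
  have h : (1 : Matrix J6 J6 ℂ).submatrix (φ ∘ π) id =
      ((1 : Matrix J6 J6 ℂ).submatrix φ id).submatrix π id := rfl
  rw [h, Matrix.det_permute]
  rfl

lemma det_one_eq {φ : J6 → J6} {x y : J6} (hxy : x ≠ y) (h : φ x = φ y) :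
    ((1 : Matrix J6 J6 ℂ).submatrix φ id).det = 0 := by
  apply Matrix.det_zero_of_row_eq hxy
  funext j
  rw [Matrix.submatrix_apply, Matrix.submatrix_apply, h]

lemma cs_swap {x y : J6} (h : x ≠ y) : cs (Equiv.swap x y) = -1 := by
  unfold cs
  rw [Equiv.Perm.sign_swap h]
  simp

lemma d3_swap0 (a b c : P2) : d3 a.swap b c = -d3 a b c := by
  have h : fr ![a.swap, b, c] = fr ![a, b, c] ∘ Equiv.swap ((0, false) : J6) (0, true) := by
    funext x
    obtain ⟨k, s⟩ := x
    fin_cases k <;> cases s <;> simp [fr, Equiv.swap_apply_def]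
  unfold d3
  rw [h, det_one_comp, cs_swap (by decide), neg_one_mul]

lemma d3_swap1 (a b c : P2) : d3 a b.swap c = -d3 a b c := by
  have h : fr ![a, b.swap, c] = fr ![a, b, c] ∘ Equiv.swap ((1, false) : J6) (1, true) := by
    funext x
    obtain ⟨k, s⟩ := x
    fin_cases k <;> cases s <;> simp [fr, Equiv.swap_apply_def]
  unfold d3
  rw [h, det_one_comp, cs_swap (by decide), neg_one_mul]

lemma d3_swap2 (a b c : P2) : d3 a b c.swap = -d3 a b c := by
  have h : fr ![a, b, c.swap] = fr ![a, b, c] ∘ Equiv.swap ((2, false) : J6) (2, true) := by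
    funext x
    obtain ⟨k, s⟩ := x
    fin_cases k <;> cases s <;> simp [fr, Equiv.swap_apply_def]
  unfold d3
  rw [h, det_one_comp, cs_swap (by decide), neg_one_mul]

lemma d3_diag0 (x : J6) (b c : P2) : d3 (x, x) b c = 0 :=
  det_one_eq (x := (0, false)) (y := (0, true)) (by decide) (by simp [fr])

lemma d3_diag1 (x : J6) (b c : P2) : d3 b (x, x) c = 0 :=
  det_one_eq (x := (1, false)) (y := (1, true)) (by decide) (by simp [fr])

lemma d3_diag2 (x : J6) (b c : P2) : d3 b c (x, x) = 0 :=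
  det_one_eq (x := (2, false)) (y := (2, true)) (by decide) (by simp [fr])

lemma d3_comm01 (a b c : P2) : d3 b a c = d3 a b c := by
  have h : fr ![b, a, c] = (fr ![a, b, c] ∘ Equiv.swap ((0, false) : J6) (1, false)) ∘
      Equiv.swap ((0, true) : J6) (1, true) := by
    funext x
    obtain ⟨k, s⟩ := x
    fin_cases k <;> cases s <;> simp [fr, Equiv.swap_apply_def]
  unfold d3
  rw [h, det_one_comp, det_one_comp, cs_swap (by decide), cs_swap (by decide)]
  ring

lemma d3_comm12 (a b c : P2) : d3 a c b = d3 a b c := by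
  have h : fr ![a, c, b] = (fr ![a, b, c] ∘ Equiv.swap ((1, false) : J6) (2, false)) ∘
      Equiv.swap ((1, true) : J6) (2, true) := by
    funext x
    obtain ⟨k, s⟩ := x
    fin_cases k <;> cases s <;> simp [fr, Equiv.swap_apply_def]
  unfold d3
  rw [h, det_one_comp, det_one_comp, cs_swap (by decide), cs_swap (by decide)]
  ring

/-- triples -/
def eq3 (P : Type) : (Fin 3 → P) ≃ P × P × P where
  toFun a := (a 0, a 1, a 2)
  invFun p := ![p.1, p.2.1, p.2.2]
  left_inv a := by
    funext i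
    fin_cases i <;> rfl
  right_inv p := rfl

lemma sum_eq3 {P : Type} [Fintype P] (f : (Fin 3 → P) → ℂ) :
    ∑ a : Fin 3 → P, f a = ∑ x, ∑ y, ∑ z, f ![x, y, z] := by
  rw [Fintype.sum_equiv (eq3 P) f (fun p => f ![p.1, p.2.1, p.2.2])
    (fun a => by
      congr 1
      exact ((eq3 P).left_inv a).symm), Fintype.sum_prod_type]
  refine Finset.sum_congr rfl fun x _ => ?_
  rw [Fintype.sum_prod_type]

/-- the coordinates: mixed pairs, and pairs on one side (labelled by the missing index) -/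
abbrev I15 : Type := (Fin 3 × Fin 3) ⊕ J6

/-- the pair of indices of a coordinate -/
def rw' : I15 → P2
  | Sum.inl m => ((m.1, false), (m.2, true))
  | Sum.inr k => ((k.1 + 1, k.2), (k.1 + 2, k.2))

/-- enumeration of the pairs -/
lemma enum (g : P2 → ℂ) (hs : ∀ p, g p.swap = g p) (hd : ∀ x, g (x, x) = 0) :
    ∑ p, g p = 2 * ∑ X, g (rw' X) := by
  have h1 : ∀ x y : J6, g (x, y) = g (y, x) := fun x y => hs (y, x)
  rw [Fintype.sum_prod_type]
  simp only [Fintype.sum_sum_type, rw', Fintype.sum_prod_type, Fin.sum_univ_three,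
    Fintype.sum_bool, hd]
  simp only [show ((0 : Fin 3) + 1) = 1 from rfl, show ((0 : Fin 3) + 2) = 2 from rfl,
    show ((1 : Fin 3) + 1) = 2 from rfl, show ((1 : Fin 3) + 2) = 0 from rfl,
    show ((2 : Fin 3) + 1) = 0 from rfl, show ((2 : Fin 3) + 2) = 1 from rfl]
  rw [h1 (0, true) (0, false), h1 (0, true) (1, false), h1 (0, true) (2, false),
    h1 (1, true) (0, false), h1 (1, true) (1, false), h1 (1, true) (2, false),
    h1 (2, true) (0, false), h1 (2, true) (1, false), h1 (2, true) (2, false),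
    h1 (1, true) (0, true), h1 (2, true) (0, true), h1 (2, true) (1, true),
    h1 (1, false) (0, false), h1 (2, false) (0, false), h1 (2, false) (1, false)]
  ring

/-- enumeration of the triples of pairs -/
lemma enum3 (G : P2 → P2 → P2 → ℂ) (h0 : ∀ a b c, G a.swap b c = G a b c)
    (h1 : ∀ a b c, G a b.swap c = G a b c) (h2 : ∀ a b c, G a b c.swap = G a b c)
    (d0 : ∀ x b c, G (x, x) b c = 0) (d1 : ∀ x b c, G b (x, x) c = 0)
    (d2 : ∀ x b c, G b c (x, x) = 0) :
    ∑ a, ∑ b, ∑ c, G a b c = 8 * ∑ X, ∑ Y, ∑ Z, G (rw' X) (rw' Y) (rw' Z) := by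
  rw [enum (fun a => ∑ b, ∑ c, G a b c)
    (fun p => by simp only [h0]) (fun x => by simp only [d0, Finset.sum_const_zero])]
  have e1 : ∀ X, ∑ b, ∑ c, G (rw' X) b c = 4 * ∑ Y, ∑ Z, G (rw' X) (rw' Y) (rw' Z) := by
    intro X
    rw [enum (fun b => ∑ c, G (rw' X) b c)
      (fun p => by simp only [h1]) (fun x => by simp only [d1, Finset.sum_const_zero])]
    have e2 : ∀ Y, ∑ c, G (rw' X) (rw' Y) c = 2 * ∑ Z, G (rw' X) (rw' Y) (rw' Z) := by
      intro Y
      exact enum (fun c => G (rw' X) (rw' Y) c) (fun p => h2 _ _ p) (fun x => d2 x _ _)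
    simp only [e2, ← Finset.mul_sum]
    ring
  simp only [e1, ← Finset.mul_sum]
  ring

lemma prod_fr (X : Fin 3 → P2) (h : Fin 3 → J6 → J6 → ℂ) :
    ∏ b, h b (fr X (b, false)) (fr X (b, true)) = ∏ b, h b (X b).1 (X b).2 := by
  refine Finset.prod_congr rfl fun b _ => ?_
  simp [fr]

lemma sum_fr (T : (J6 → J6) → ℂ) : ∑ φ : J6 → J6, T φ = ∑ X : Fin 3 → P2, T (fr X) := by
  refine (Fintype.sum_equiv (fe (Fin 3) J6) T (fun X => T (fr X)) fun φ => ?_)
  congr 1
  funext x
  obtain ⟨b, c⟩ := x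
  cases c <;> rfl

/-- the double alternating sum as a sum over triples of pairs -/
lemma GG_pairs (H : J6 → J6 → J6 → J6 → ℂ) :
    GG H = ∑ a, ∑ b, ∑ c, ∑ a', ∑ b', ∑ c', d3 a b c * d3 a' b' c' *
      (H a.1 a.2 a'.1 a'.2 * H b.1 b.2 b'.1 b'.2 * H c.1 c.2 c'.1 c'.2) := by
  have h1 : GG H = ∑ φ : J6 → J6, ∑ ψ : J6 → J6,
      ((1 : Matrix J6 J6 ℂ).submatrix φ id).det * ((1 : Matrix J6 J6 ℂ).submatrix ψ id).det *
      ∏ b : Fin 3, H (φ (b, false)) (φ (b, true)) (ψ (b, false)) (ψ (b, true)) := by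
    have e1 : ∀ T : (J6 → J6) → ℂ, ∑ φ : J6 → J6, ((1 : Matrix J6 J6 ℂ).submatrix φ id).det * T φ =
        ∑ σ : Equiv.Perm J6, cs σ * T σ := by
      intro T
      have := sum_maps (1 : Matrix J6 J6 ℂ) T
      rw [Matrix.det_one, one_mul] at this
      rw [← this]
      exact Finset.sum_congr rfl fun φ _ => mul_comm _ _
    have e2 : ∀ φ : J6 → J6, ∑ ψ : J6 → J6,
        ((1 : Matrix J6 J6 ℂ).submatrix φ id).det * ((1 : Matrix J6 J6 ℂ).submatrix ψ id).det *
          ∏ b : Fin 3, H (φ (b, false)) (φ (b, true)) (ψ (b, false)) (ψ (b, true)) =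
        ((1 : Matrix J6 J6 ℂ).submatrix φ id).det * ∑ τ : Equiv.Perm J6, cs τ *
          ∏ b : Fin 3, H (φ (b, false)) (φ (b, true)) (τ (b, false)) (τ (b, true)) := by
      intro φ
      rw [← e1 (fun ψ => ∏ b : Fin 3, H (φ (b, false)) (φ (b, true)) (ψ (b, false)) (ψ (b, true))),
        Finset.mul_sum]
      exact Finset.sum_congr rfl fun ψ _ => by ring
    simp only [e2]
    rw [e1 (fun φ => ∑ τ : Equiv.Perm J6, cs τ *
          ∏ b : Fin 3, H (φ (b, false)) (φ (b, true)) (τ (b, false)) (τ (b, true)))]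
    unfold GG
    refine Finset.sum_congr rfl fun σ _ => ?_
    rw [Finset.mul_sum]
    exact Finset.sum_congr rfl fun τ _ => by ring
  rw [h1, sum_fr]
  simp only [sum_fr (fun ψ => _ * ((1 : Matrix J6 J6 ℂ).submatrix ψ id).det * _)]
  rw [sum_eq3]
  refine Finset.sum_congr rfl fun a _ => Finset.sum_congr rfl fun b _ =>
    Finset.sum_congr rfl fun c _ => ?_
  rw [sum_eq3]
  refine Finset.sum_congr rfl fun a' _ => Finset.sum_congr rfl fun b' _ =>
    Finset.sum_congr rfl fun c' _ => ?_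
  unfold d3
  congr 1
  rw [Fin.prod_univ_three]
  simp [fr]

end Pool.Agent.N256.UR
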