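import Pool.Agent.N256.UR.Comb

/-!
# The double alternating sum of a tensor which is block diagonal for a splitting 3 + 3, part 2
-/

set_option autoImplicit false

namespace Pool.Agent.N256.UR

open Finset Pool.Agent.TH598.GV Pool.Agent.R735.HA
open scoped ComplexConjugate

/-- the sign of a map of three indices -/
noncomputable def e3 (i : Fin 3 → Fin 3) : ℂ := ((1 : Matrix (Fin 3) (Fin 3) ℂ).submatrix i id).det

/-- the map with given values on both sides -/
def blk (i a : Fin 3 → Fin 3) : J6 → J6 := fun x => if x.2 then (a x.1, true) else (i x.1, false)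

lemma det_blk (i a : Fin 3 → Fin 3) :
    ((1 : Matrix J6 J6 ℂ).submatrix (blk i a) id).det = e3 i * e3 a := by
  have h : (1 : Matrix J6 J6 ℂ).submatrix (blk i a) id =
      Matrix.blockDiagonal (fun s : Bool => if s then (1 : Matrix (Fin 3) (Fin 3) ℂ).submatrix a id
        else (1 : Matrix (Fin 3) (Fin 3) ℂ).submatrix i id) := by
    ext ⟨x, s⟩ ⟨y, t⟩
    cases s <;> cases t <;>
      simp [Matrix.blockDiagonal_apply, blk, Matrix.one_apply, Prod.ext_iff]
  rw [h, Matrix.det_blockDiagonal, Fintype.prod_bool]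
  simp only [if_true, Bool.false_eq_true, if_false, e3]
  ring

lemma e3_unit (i u : Fin 3) : e3 ![i, u + 1, u + 2] = if i = u then 1 else 0 := by
  unfold e3
  rw [Matrix.det_fin_three]
  fin_cases i <;> fin_cases u <;> simp [Matrix.one_apply]

lemma d_MMM (m n l : Fin 3 × Fin 3) :
    d3 (rw' (Sum.inl m)) (rw' (Sum.inl n)) (rw' (Sum.inl l)) =
      e3 ![m.1, n.1, l.1] * e3 ![m.2, n.2, l.2] := by
  rw [← det_blk]
  unfold d3
  have h : fr ![rw' (Sum.inl m), rw' (Sum.inl n), rw' (Sum.inl l)] =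
      blk ![m.1, n.1, l.1] ![m.2, n.2, l.2] := by
    funext x
    obtain ⟨k, s⟩ := x
    fin_cases k <;> cases s <;> simp [fr, blk, rw']
  rw [h]

lemma d_MKK0 (i a u v : Fin 3) :
    d3 (rw' (Sum.inl (i, a))) (rw' (Sum.inr (u, false))) (rw' (Sum.inr (v, true))) =
      -((if i = u then 1 else 0) * (if a = v then 1 else 0)) := by
  rw [← e3_unit i u, ← e3_unit a v, ← det_blk]
  unfold d3
  have h : fr ![rw' (Sum.inl (i, a)), rw' (Sum.inr (u, false)), rw' (Sum.inr (v, true))] =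
      blk ![i, u + 1, u + 2] ![a, v + 1, v + 2] ∘ Equiv.swap ((1, true) : J6) (2, false) := by
    funext x
    obtain ⟨k, s⟩ := x
    fin_cases k <;> cases s <;> simp [fr, blk, rw', Equiv.swap_apply_def]
  rw [h, det_one_comp, cs_swap (by decide), neg_one_mul]

lemma d_four (φ : J6 → J6) (s : Bool) (r : Fin 4 → J6) (hr : Function.Injective r)
    (h : ∀ j, (φ (r j)).2 = s) : ((1 : Matrix J6 J6 ℂ).submatrix φ id).det = 0 := by
  obtain ⟨x, y, hxy, he⟩ := Fintype.exists_ne_map_eq_of_card_lt (fun j : Fin 4 => (φ (r j)).1)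
    (by simp)
  exact det_one_eq (hr.ne hxy) (Prod.ext he ((h x).trans (h y).symm))

lemma d_KKsame (a : P2) (u v : Fin 3) (s : Bool) :
    d3 a (rw' (Sum.inr (u, s))) (rw' (Sum.inr (v, s))) = 0 := by
  refine d_four _ s ![(1, false), (1, true), (2, false), (2, true)] (by decide) fun j => ?_
  fin_cases j <;> simp [fr, rw']

lemma d_MKK (m : Fin 3 × Fin 3) (k l : J6) :
    d3 (rw' (Sum.inl m)) (rw' (Sum.inr k)) (rw' (Sum.inr l)) =
      -((if k = (m.1, false) then (if l = (m.2, true) then 1 else 0) else 0) +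
        (if k = (m.2, true) then (if l = (m.1, false) then 1 else 0) else 0)) := by
  obtain ⟨i, a⟩ := m
  obtain ⟨u, s⟩ := k
  obtain ⟨v, t⟩ := l
  cases s <;> cases t
  · rw [d_KKsame]; simp
  · rw [d_MKK0]
    by_cases h1 : i = u <;> by_cases h2 : a = v <;> simp [h1, h2, eq_comm]
  · rw [d3_comm12, d_MKK0]
    by_cases h1 : i = v <;> by_cases h2 : a = u <;> simp [h1, h2, eq_comm]
  · rw [d_KKsame]; simp

lemma d_MMK (m n : Fin 3 × Fin 3) (k : J6) :
    d3 (rw' (Sum.inl m)) (rw' (Sum.inl n)) (rw' (Sum.inr k)) = 0 := by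
  obtain ⟨u, s⟩ := k
  refine d_four _ s ![(0, s), (1, s), (2, false), (2, true)] ?_ fun j => ?_
  · cases s <;> decide
  · cases s <;> fin_cases j <;> simp [fr, rw']

lemma d_MKM (m n : Fin 3 × Fin 3) (k : J6) :
    d3 (rw' (Sum.inl m)) (rw' (Sum.inr k)) (rw' (Sum.inl n)) = 0 := by
  rw [d3_comm12, d_MMK]

lemma d_KMM (m n : Fin 3 × Fin 3) (k : J6) :
    d3 (rw' (Sum.inr k)) (rw' (Sum.inl m)) (rw' (Sum.inl n)) = 0 := by
  rw [d3_comm01, d_MKM]

lemma d_KMK (m : Fin 3 × Fin 3) (k l : J6) :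
    d3 (rw' (Sum.inr k)) (rw' (Sum.inl m)) (rw' (Sum.inr l)) =
      d3 (rw' (Sum.inl m)) (rw' (Sum.inr k)) (rw' (Sum.inr l)) := d3_comm01 _ _ _

lemma d_KKM (m : Fin 3 × Fin 3) (k l : J6) :
    d3 (rw' (Sum.inr k)) (rw' (Sum.inr l)) (rw' (Sum.inl m)) =
      d3 (rw' (Sum.inl m)) (rw' (Sum.inr k)) (rw' (Sum.inr l)) := by
  rw [d3_comm12, d3_comm01]

lemma d_KKK (k l m : J6) :
    d3 (rw' (Sum.inr k)) (rw' (Sum.inr l)) (rw' (Sum.inr m)) = 0 := by
  obtain ⟨u, s⟩ := k
  obtain ⟨v, t⟩ := l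
  obtain ⟨w, r⟩ := m
  by_cases h : t = r
  · subst h; exact d_KKsame _ _ _ _
  by_cases h' : s = t
  · subst h'; rw [d3_comm12, d3_comm01, d_KKsame]
  · have h'' : s = r := by
      cases s <;> cases t <;> cases r <;> simp_all
    subst h''; rw [d3_comm01, d_KKsame]

/-- the values on two coordinates -/
def et (H : J6 → J6 → J6 → J6 → ℂ) (X Y : I15) : ℂ :=
  H (rw' X).1 (rw' X).2 (rw' Y).1 (rw' Y).2

lemma HS.alt' {H : J6 → J6 → J6 → J6 → ℂ} (hH : HS H) (i j k l : J6) :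
    H i j l k = -H i j k l := by
  rw [hH.herm l k i j, hH.alt k l i j, map_neg, ← hH.herm k l i j]

/-- the double alternating sum in coordinates -/
lemma GG_coord (H : J6 → J6 → J6 → J6 → ℂ) (hH : HS H) :
    GG H = 64 * ∑ X, ∑ Y, ∑ Z, ∑ X', ∑ Y', ∑ Z', d3 (rw' X) (rw' Y) (rw' Z) *
      d3 (rw' X') (rw' Y') (rw' Z') * (et H X X' * et H Y Y' * et H Z Z') := by
  have hs : ∀ (p q : P2), H p.swap.1 p.swap.2 q.1 q.2 = -H p.1 p.2 q.1 q.2 := fun p q =>
    hH.alt _ _ _ _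
  have hs' : ∀ (p q : P2), H p.1 p.2 q.swap.1 q.swap.2 = -H p.1 p.2 q.1 q.2 := fun p q =>
    HS.alt' hH _ _ _ _
  rw [GG_pairs, enum3 (fun a b c => ∑ a', ∑ b', ∑ c', d3 a b c * d3 a' b' c' *
      (H a.1 a.2 a'.1 a'.2 * H b.1 b.2 b'.1 b'.2 * H c.1 c.2 c'.1 c'.2))]
  · have e1 : ∀ X Y Z, ∑ a' : P2, ∑ b' : P2, ∑ c' : P2, d3 (rw' X) (rw' Y) (rw' Z) * d3 a' b' c' *
      (H (rw' X).1 (rw' X).2 a'.1 a'.2 * H (rw' Y).1 (rw' Y).2 b'.1 b'.2 *
        H (rw' Z).1 (rw' Z).2 c'.1 c'.2) =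
      8 * ∑ X', ∑ Y', ∑ Z', d3 (rw' X) (rw' Y) (rw' Z) *
      d3 (rw' X') (rw' Y') (rw' Z') * (et H X X' * et H Y Y' * et H Z Z') := by
      intro X Y Z
      rw [enum3 (fun a' b' c' => d3 (rw' X) (rw' Y) (rw' Z) * d3 a' b' c' *
        (H (rw' X).1 (rw' X).2 a'.1 a'.2 * H (rw' Y).1 (rw' Y).2 b'.1 b'.2 *
        H (rw' Z).1 (rw' Z).2 c'.1 c'.2))]
      · rfl
      · intro a b c; simp only [d3_swap0, hs']; ring
      · intro a b c; simp only [d3_swap1, hs']; ring
      · intro a b c; simp only [d3_swap2, hs']; ring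
      · intro x b c; simp only [d3_diag0]; ring
      · intro x b c; simp only [d3_diag1]; ring
      · intro x b c; simp only [d3_diag2]; ring
    simp only [e1, ← Finset.mul_sum]
    ring
  · intro a b c; simp only [d3_swap0, hs]
    refine Finset.sum_congr rfl fun a' _ => Finset.sum_congr rfl fun b' _ =>
      Finset.sum_congr rfl fun c' _ => by ring
  · intro a b c; simp only [d3_swap1, hs]
    refine Finset.sum_congr rfl fun a' _ => Finset.sum_congr rfl fun b' _ =>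
      Finset.sum_congr rfl fun c' _ => by ring
  · intro a b c; simp only [d3_swap2, hs]
    refine Finset.sum_congr rfl fun a' _ => Finset.sum_congr rfl fun b' _ =>
      Finset.sum_congr rfl fun c' _ => by ring
  · intro x b c; simp only [d3_diag0, zero_mul, Finset.sum_const_zero]
  · intro x b c; simp only [d3_diag1, zero_mul, Finset.sum_const_zero]
  · intro x b c; simp only [d3_diag2, zero_mul, Finset.sum_const_zero]

end Pool.Agent.N256.UR
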