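import Pool.Agent.N256.UR.Comb2

/-!
# The double alternating sum of a tensor which is block diagonal for a splitting 3 + 3, part 3
-/

set_option autoImplicit false

namespace Pool.Agent.N256.UR

open Finset Pool.Agent.TH598.GV Pool.Agent.R735.HA H864R3
open scoped ComplexConjugate

/-- the block on the mixed bivectors -/
noncomputable def Bm (H : J6 → J6 → J6 → J6 → ℂ) (i j : Fin 3) : Matrix (Fin 3) (Fin 3) ℂ :=
  Matrix.of fun a b => H (i, false) (a, true) (j, false) (b, true)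

/-- the block on the bivectors of the two sides -/
def Kd (H : J6 → J6 → J6 → J6 → ℂ) (k l : J6) : ℂ :=
  H (k.1 + 1, k.2) (k.1 + 2, k.2) (l.1 + 1, l.2) (l.1 + 2, l.2)

/-- the second part of the double alternating sum -/
noncomputable def SS (h : Fin 3 → Fin 3 → Matrix (Fin 3) (Fin 3) ℂ) (κ : J6 → J6 → ℂ) : ℂ :=
  ∑ i, ∑ a, ∑ j, ∑ b, h i j a b *
    (κ (i, false) (j, false) * κ (a, true) (b, true) +
      κ (i, false) (b, true) * κ (a, true) (j, false))

section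

variable {H : J6 → J6 → J6 → J6 → ℂ}

lemma et_MK (hb : ∀ i j k l, i.2 ≠ j.2 → k.2 = l.2 → H i j k l = 0) (m : Fin 3 × Fin 3) (k : J6) :
    et H (Sum.inl m) (Sum.inr k) = 0 := hb _ _ _ _ (by simp [rw']) (by simp [rw'])

lemma et_KM (hb : ∀ i j k l, i.2 = j.2 → k.2 ≠ l.2 → H i j k l = 0) (m : Fin 3 × Fin 3) (k : J6) :
    et H (Sum.inr k) (Sum.inl m) = 0 := hb _ _ _ _ (by simp [rw']) (by simp [rw'])

/-- the first part -/
noncomputable def TM (H : J6 → J6 → J6 → J6 → ℂ) : ℂ :=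
  ∑ x : Fin 3 × Fin 3, ∑ y : Fin 3 × Fin 3, ∑ z : Fin 3 × Fin 3, ∑ x' : Fin 3 × Fin 3,
    ∑ y' : Fin 3 × Fin 3, ∑ z' : Fin 3 × Fin 3,
      d3 (rw' (Sum.inl x)) (rw' (Sum.inl y)) (rw' (Sum.inl z)) *
      d3 (rw' (Sum.inl x')) (rw' (Sum.inl y')) (rw' (Sum.inl z')) *
      (et H (Sum.inl x) (Sum.inl x') * et H (Sum.inl y) (Sum.inl y') *
        et H (Sum.inl z) (Sum.inl z'))

/-- the second part -/
noncomputable def TK (H : J6 → J6 → J6 → J6 → ℂ) : ℂ :=
  ∑ x : Fin 3 × Fin 3, ∑ y : J6, ∑ z : J6, ∑ x' : Fin 3 × Fin 3,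
    ∑ y' : J6, ∑ z' : J6,
      d3 (rw' (Sum.inl x)) (rw' (Sum.inr y)) (rw' (Sum.inr z)) *
      d3 (rw' (Sum.inl x')) (rw' (Sum.inr y')) (rw' (Sum.inr z')) *
      (et H (Sum.inl x) (Sum.inl x') * et H (Sum.inr y) (Sum.inr y') *
        et H (Sum.inr z) (Sum.inr z'))

lemma split (hH : HS H) (hb : ∀ i j k l, i.2 = j.2 → k.2 ≠ l.2 → H i j k l = 0)
    (hb' : ∀ i j k l, i.2 ≠ j.2 → k.2 = l.2 → H i j k l = 0) :
    GG H = 64 * (TM H + 3 * TK H) := by
  rw [GG_coord H hH]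
  congr 1
  simp only [Fintype.sum_sum_type, et_MK hb', et_KM hb, d_MMK, d_MKM, d_KMM, d_KKK, mul_zero,
    zero_mul, Finset.sum_const_zero, add_zero, zero_add, Finset.sum_add_distrib]
  have h1 : ∑ x : J6, ∑ y : Fin 3 × Fin 3, ∑ z : J6, ∑ x' : J6,
    ∑ y' : Fin 3 × Fin 3, ∑ z' : J6,
      d3 (rw' (Sum.inr x)) (rw' (Sum.inl y)) (rw' (Sum.inr z)) *
      d3 (rw' (Sum.inr x')) (rw' (Sum.inl y')) (rw' (Sum.inr z')) *
      (et H (Sum.inr x) (Sum.inr x') * et H (Sum.inl y) (Sum.inl y') *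
        et H (Sum.inr z) (Sum.inr z')) = TK H := by
    unfold TK
    rw [Finset.sum_comm]
    refine Finset.sum_congr rfl fun y _ => Finset.sum_congr rfl fun x _ =>
      Finset.sum_congr rfl fun z _ => ?_
    rw [Finset.sum_comm]
    refine Finset.sum_congr rfl fun y' _ => Finset.sum_congr rfl fun x' _ =>
      Finset.sum_congr rfl fun z' _ => ?_
    rw [d_KMK, d_KMK]
    ring
  have h2 : ∑ x : J6, ∑ y : J6, ∑ z : Fin 3 × Fin 3, ∑ x' : J6,
    ∑ y' : J6, ∑ z' : Fin 3 × Fin 3,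
      d3 (rw' (Sum.inr x)) (rw' (Sum.inr y)) (rw' (Sum.inl z)) *
      d3 (rw' (Sum.inr x')) (rw' (Sum.inr y')) (rw' (Sum.inl z')) *
      (et H (Sum.inr x) (Sum.inr x') * et H (Sum.inr y) (Sum.inr y') *
        et H (Sum.inl z) (Sum.inl z')) = TK H := by
    unfold TK
    have c1 : ∀ F : J6 → J6 → Fin 3 × Fin 3 → ℂ, ∑ x, ∑ y, ∑ z, F x y z =
        ∑ z, ∑ x, ∑ y, F x y z := by
      intro F
      have h : ∑ x, ∑ y, ∑ z, F x y z = ∑ x, ∑ z, ∑ y, F x y z :=
        Finset.sum_congr rfl fun x _ => Finset.sum_comm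
      rw [h]
      exact Finset.sum_comm
    rw [c1]
    refine Finset.sum_congr rfl fun z _ => Finset.sum_congr rfl fun x _ =>
      Finset.sum_congr rfl fun y _ => ?_
    rw [c1]
    refine Finset.sum_congr rfl fun z' _ => Finset.sum_congr rfl fun x' _ =>
      Finset.sum_congr rfl fun y' _ => ?_
    rw [d_KKM, d_KKM]
    ring
  unfold TM
  rw [h1, h2]
  unfold TK
  ring

/-- summation against the sign of a mixed pair and two pure pairs -/
lemma sum_MKK (m : Fin 3 × Fin 3) (G : J6 → J6 → ℂ) :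
    ∑ y, ∑ z, d3 (rw' (Sum.inl m)) (rw' (Sum.inr y)) (rw' (Sum.inr z)) * G y z =
      -(G (m.1, false) (m.2, true) + G (m.2, true) (m.1, false)) := by
  have h : ∀ y z, d3 (rw' (Sum.inl m)) (rw' (Sum.inr y)) (rw' (Sum.inr z)) * G y z =
      -((if y = (m.1, false) then (if z = (m.2, true) then G y z else 0) else 0) +
        (if y = (m.2, true) then (if z = (m.1, false) then G y z else 0) else 0)) := by
    intro y z
    rw [d_MKK]
    split_ifs <;> ring
  simp only [h, Finset.sum_neg_distrib, Finset.sum_add_distrib]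
  have e : ∀ (p q : J6), ∑ y, ∑ z, (if y = p then (if z = q then G y z else 0) else 0) = G p q := by
    intro p q
    rw [Finset.sum_eq_single p]
    · simp
    · intro y _ hy
      simp [hy]
    · intro hp
      exact absurd (Finset.mem_univ _) hp
  rw [e, e]

lemma TK_eq (H : J6 → J6 → J6 → J6 → ℂ) : TK H = 2 * SS (Bm H) (Kd H) := by
  have h1 : TK H = ∑ x : Fin 3 × Fin 3, ∑ x' : Fin 3 × Fin 3, et H (Sum.inl x) (Sum.inl x') *
      ∑ y, ∑ z, d3 (rw' (Sum.inl x)) (rw' (Sum.inr y)) (rw' (Sum.inr z)) *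
        ∑ y', ∑ z', d3 (rw' (Sum.inl x')) (rw' (Sum.inr y')) (rw' (Sum.inr z')) *
          (et H (Sum.inr y) (Sum.inr y') * et H (Sum.inr z) (Sum.inr z')) := by
    unfold TK
    refine Finset.sum_congr rfl fun x _ => ?_
    simp only [Finset.mul_sum]
    have c1 : ∀ F : J6 → J6 → Fin 3 × Fin 3 → ℂ, ∑ y, ∑ z, ∑ x', F y z x' =
        ∑ x', ∑ y, ∑ z, F y z x' := by
      intro F
      have h : ∑ y, ∑ z, ∑ x', F y z x' = ∑ y, ∑ x', ∑ z, F y z x' :=
        Finset.sum_congr rfl fun x _ => Finset.sum_comm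
      rw [h]
      exact Finset.sum_comm
    rw [c1]
    refine Finset.sum_congr rfl fun x' _ => Finset.sum_congr rfl fun y _ =>
      Finset.sum_congr rfl fun z _ => Finset.sum_congr rfl fun y' _ =>
        Finset.sum_congr rfl fun z' _ => by ring
  rw [h1]
  simp only [sum_MKK]
  unfold SS
  rw [Fintype.sum_prod_type, Finset.mul_sum]
  refine Finset.sum_congr rfl fun i _ => ?_
  rw [Finset.mul_sum]
  refine Finset.sum_congr rfl fun a _ => ?_
  rw [Fintype.sum_prod_type, Finset.mul_sum]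
  refine Finset.sum_congr rfl fun j _ => ?_
  rw [Finset.mul_sum]
  refine Finset.sum_congr rfl fun b _ => ?_
  simp only [et, rw', Bm, Kd, Matrix.of_apply]
  ring

lemma sum_e3 (T : (Fin 3 → Fin 3) → ℂ) : ∑ i, e3 i * T i = ∑ σ : Equiv.Perm (Fin 3), cs σ * T σ := by
  have h := sum_maps (1 : Matrix (Fin 3) (Fin 3) ℂ) T
  rw [Matrix.det_one, one_mul] at h
  rw [← h]
  exact Finset.sum_congr rfl fun i _ => mul_comm _ _

lemma sum_three (F : Fin 3 × Fin 3 → Fin 3 × Fin 3 → Fin 3 × Fin 3 → ℂ) :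
    ∑ x, ∑ y, ∑ z, F x y z =
      ∑ i : Fin 3 → Fin 3, ∑ a : Fin 3 → Fin 3, F (i 0, a 0) (i 1, a 1) (i 2, a 2) := by
  rw [← Fintype.sum_prod_type (f := fun p : (Fin 3 → Fin 3) × (Fin 3 → Fin 3) =>
      F (p.1 0, p.2 0) (p.1 1, p.2 1) (p.1 2, p.2 2)),
    ← Equiv.sum_comp (Equiv.arrowProdEquivProdArrow (Fin 3) (fun _ => Fin 3) (fun _ => Fin 3)),
    sum_eq3]
  rfl

lemma vec3 (i : Fin 3 → Fin 3) : ![i 0, i 1, i 2] = i := by
  funext k
  fin_cases k <;> rfl

lemma cs_mul' (σ τ : Equiv.Perm (Fin 3)) : cs (σ * τ) = cs σ * cs τ := by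
  unfold cs
  rw [Equiv.Perm.sign_mul]
  push_cast
  rfl

lemma cs_sq (σ : Equiv.Perm (Fin 3)) : cs σ * cs σ = 1 := by
  unfold cs
  rcases Int.units_eq_one_or (Equiv.Perm.sign σ) with h | h <;> rw [h] <;> simp

lemma TM_eq (H : J6 → J6 → J6 → J6 → ℂ) : TM H = 6 * Phi6 (Bm H) := by
  have h1 : TM H = ∑ i, e3 i * ∑ a, e3 a * ∑ j, e3 j * ∑ b, e3 b *
      ∏ k, Bm H (i k) (j k) (a k) (b k) := by
    unfold TM
    rw [sum_three (fun x y z => ∑ x' : Fin 3 × Fin 3,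
    ∑ y' : Fin 3 × Fin 3, ∑ z' : Fin 3 × Fin 3,
      d3 (rw' (Sum.inl x)) (rw' (Sum.inl y)) (rw' (Sum.inl z)) *
      d3 (rw' (Sum.inl x')) (rw' (Sum.inl y')) (rw' (Sum.inl z')) *
      (et H (Sum.inl x) (Sum.inl x') * et H (Sum.inl y) (Sum.inl y') *
        et H (Sum.inl z) (Sum.inl z')))]
    simp only [Finset.mul_sum]
    refine Finset.sum_congr rfl fun i _ => Finset.sum_congr rfl fun a _ => ?_
    rw [sum_three]
    refine Finset.sum_congr rfl fun j _ => Finset.sum_congr rfl fun b _ => ?_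
    rw [d_MMM, d_MMM, Fin.prod_univ_three]
    simp only [vec3, et, rw', Bm, Matrix.of_apply]
    ring
  rw [h1]
  simp only [sum_e3]
  have h2 : ∀ σ : Equiv.Perm (Fin 3), cs σ * ∑ α : Equiv.Perm (Fin 3), cs α *
      ∑ τ : Equiv.Perm (Fin 3), cs τ * ∑ β : Equiv.Perm (Fin 3), cs β *
        ∏ k, Bm H (σ k) (τ k) (α k) (β k) = Phi6 (Bm H) := by
    intro σ
    rw [← Equiv.sum_comp (Equiv.mulRight σ)]
    have e1 : ∀ α : Equiv.Perm (Fin 3), ∑ τ : Equiv.Perm (Fin 3), cs τ *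
        ∑ β : Equiv.Perm (Fin 3), cs β * ∏ k, Bm H (σ k) (τ k) ((Equiv.mulRight σ α) k) (β k) =
        ∑ τ : Equiv.Perm (Fin 3), cs τ * cs σ * ∑ β : Equiv.Perm (Fin 3), cs β * cs σ *
          ∏ k, Bm H k (τ k) (α k) (β k) := by
      intro α
      rw [← Equiv.sum_comp (Equiv.mulRight σ)]
      refine Finset.sum_congr rfl fun τ _ => ?_
      rw [Equiv.coe_mulRight, cs_mul']
      congr 1
      rw [← Equiv.sum_comp (Equiv.mulRight σ)]
      refine Finset.sum_congr rfl fun β _ => ?_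
      rw [Equiv.coe_mulRight, cs_mul']
      congr 1
      exact Equiv.prod_comp σ (fun k => Bm H k (τ k) (α k) (β k))
    simp only [e1]
    unfold Phi6
    simp only [Finset.mul_sum]
    rw [Finset.sum_comm]
    refine Finset.sum_congr rfl fun τ _ => Finset.sum_congr rfl fun α _ =>
      Finset.sum_congr rfl fun β _ => ?_
    rw [Equiv.coe_mulRight, cs_mul']
    have h := cs_sq σ
    have e2 : cs σ * (cs α * cs σ * (cs τ * cs σ * (cs β * cs σ *
        ∏ k, Bm H k (τ k) (α k) (β k)))) = (cs σ * cs σ) * (cs σ * cs σ) *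
        (cs τ * (cs α * cs β * ∏ k, Bm H k (τ k) (α k) (β k))) := by ring
    rw [e2, h]
    unfold cs
    ring
  simp only [h2, Finset.sum_const, Finset.card_univ, Fintype.card_perm, Fintype.card_fin]
  norm_num [Nat.factorial]

/-- **the double alternating sum of a block diagonal tensor** -/
theorem GG_block (hH : HS H) (hb : ∀ i j k l, i.2 = j.2 → k.2 ≠ l.2 → H i j k l = 0) :
    GG H = 384 * (Phi6 (Bm H) + SS (Bm H) (Kd H)) := by
  rw [split hH hb (fun i j k l h1 h2 => by rw [hH.herm k l i j, hb k l i j h2 h1, map_zero]),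
    TM_eq, TK_eq]
  ring

end

end Pool.Agent.N256.UR
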