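import Pool.Agent.N256.UR.Shift

/-!
# The double mixed discriminant of a shifted tensor, part 2
-/

set_option autoImplicit false

namespace Pool.Agent.N256.UR

open Finset H864R3
open scoped ComplexConjugate ComplexOrder

set_option maxHeartbeats 8000000 in
lemma Phi6_shift (B : Fin 3 → Fin 3 → Matrix (Fin 3) (Fin 3) ℂ) (δ : ℂ) :
    Phi6 (Bsh B δ) = Phi6 B + δ * ∑ p, ∑ q, Phi6 (Bmin B p q) +
      2 * δ ^ 2 * (∑ i, ∑ a, B i i a a) + 6 * δ ^ 3 := by
  simp only [Phi6_min, Fin.sum_univ_three]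
  unfold Phi6
  simp only [sum_perm]
  simp [Bsh, Fin.prod_univ_three, Equiv.swap_apply_def]
  ring

end Pool.Agent.N256.UR
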