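import Pool.Agent.N256.UR.Pos
import Pool.Agent.N256.UR.Shift2

/-!
# The coordinate theorem
-/

set_option autoImplicit false

namespace Pool.Agent.N256.UR

open Finset MeasureTheory Pool.Agent.TH598.GV Pool.Agent.R735.HA H864R3
open scoped ComplexConjugate ComplexOrder

/-- a vector of the first side -/
def ze (z : Fin 3 → ℂ) : J6 → ℂ := fun k => if k.2 then 0 else z k.1

/-- a vector of the second side -/
def we (w : Fin 3 → ℂ) : J6 → ℂ := fun k => if k.2 then w k.1 else 0

lemma sum_ze (z : Fin 3 → ℂ) (F : J6 → ℂ) : ∑ k, F k * ze z k = ∑ i, F (i, false) * z i := by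
  rw [Fintype.sum_prod_type]
  refine Finset.sum_congr rfl fun i _ => ?_
  rw [Fintype.sum_bool]
  simp [ze]

lemma sum_we (w : Fin 3 → ℂ) (F : J6 → ℂ) : ∑ k, F k * we w k = ∑ i, F (i, true) * w i := by
  rw [Fintype.sum_prod_type]
  refine Finset.sum_congr rfl fun i _ => ?_
  rw [Fintype.sum_bool]
  simp [we]

lemma conj_ze (z : Fin 3 → ℂ) (k : J6) : conj (ze z k) = ze (fun i => conj (z i)) k := by
  unfold ze
  split_ifs <;> simp

lemma conj_we (z : Fin 3 → ℂ) (k : J6) : conj (we z k) = we (fun i => conj (z i)) k := by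
  unfold we
  split_ifs <;> simp

lemma qf_side (H : J6 → J6 → J6 → J6 → ℂ) (z w : Fin 3 → ℂ) :
    qf H (ze z) (we w) = hv (Bm H) z w := by
  unfold qf hv
  have h : ∀ i j k l, H i j k l * (ze z i * we w j * conj (ze z k) * conj (we w l)) =
      ((H i j k l * we (fun i => conj (w i)) l) * ze (fun i => conj (z i)) k * we w j) *
        ze z i := by
    intro i j k l
    rw [conj_ze, conj_we]
    ring
  simp only [h, ← Finset.sum_mul, sum_ze, sum_we]
  refine Finset.sum_congr rfl fun i _ => ?_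
  rw [Finset.sum_mul]
  refine Finset.sum_congr rfl fun a _ => ?_
  rw [Finset.sum_mul, Finset.sum_mul]
  refine Finset.sum_congr rfl fun j _ => ?_
  rw [Finset.sum_mul, Finset.sum_mul, Finset.sum_mul]
  refine Finset.sum_congr rfl fun b _ => ?_
  simp only [Bm, Matrix.of_apply]
  ring

section factor

open scoped MatrixOrder Matrix.Norms.L2Operator

lemma fac {I : Type} [Fintype I] [DecidableEq I] {A : Matrix I I ℂ} (hA : A.PosSemidef) :
    ∃ D : Matrix I I ℂ, A = D.conjTranspose * D := by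
  obtain ⟨D, hD⟩ := CStarAlgebra.nonneg_iff_eq_star_mul_self.mp hA.nonneg
  exact ⟨D, hD⟩

end factor

lemma psd_of_re {I : Type} [Fintype I] {M : Matrix I I ℂ} (hM : ∀ k l, M l k = conj (M k l))
    (h : ∀ c : I → ℂ, 0 ≤ (∑ k, ∑ l, M k l * (c k * conj (c l))).re) : M.PosSemidef := by
  have hH : M.IsHermitian := by
    ext k l
    rw [Matrix.conjTranspose_apply]
    exact (hM l k).symm
  refine Matrix.PosSemidef.of_dotProduct_mulVec_nonneg hH fun c => ?_
  have key : star c ⬝ᵥ M.mulVec c = ∑ k, ∑ l, M k l * (conj (c k) * conj (conj (c l))) := by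
    unfold dotProduct Matrix.mulVec dotProduct
    refine Finset.sum_congr rfl fun s _ => ?_
    rw [Finset.mul_sum]
    refine Finset.sum_congr rfl fun t _ => ?_
    rw [Complex.conj_conj]
    simp only [Pi.star_apply, RCLike.star_def]
    ring
  have h1 := h (fun k => conj (c k))
  rw [← key] at h1
  rw [Complex.le_def]
  exact ⟨h1, (hH.im_star_dotProduct_mulVec_self c).symm⟩

/-- the first part -/
lemma core_re (B : Fin 3 → Fin 3 → Matrix (Fin 3) (Fin 3) ℂ)
    (hB : ∀ i j a b, B j i b a = conj (B i j a b)) (hh : ∀ z w, 0 ≤ (hv B z w).re) :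
    0 ≤ (Phi6 B).re := by
  have h := core_nonneg (B := B) fun ξ => ?_
  · exact (Complex.le_def.mp h).1
  · refine psd_of_re (fun a b => ?_) fun w => ?_
    · simp only [Matrix.sum_apply, Matrix.smul_apply, smul_eq_mul, map_sum, map_mul]
      rw [Finset.sum_comm]
      refine Finset.sum_congr rfl fun i _ => Finset.sum_congr rfl fun j _ => ?_
      have e := hB i j a b
      simp only [e, RCLike.star_def, Complex.conj_conj]
      ring
    · have h1 := hh ξ w
      have e : ∑ a, ∑ b, (∑ i, ∑ j, (ξ i * star (ξ j)) • B i j) a b * (w a * conj (w b)) =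
          hv B ξ w := by
        unfold hv
        simp only [Matrix.sum_apply, Matrix.smul_apply, smul_eq_mul, Finset.sum_mul]
        have c1 : ∀ F : Fin 3 → Fin 3 → Fin 3 → Fin 3 → ℂ, ∑ a, ∑ b, ∑ i, ∑ j, F a b i j =
            ∑ i, ∑ a, ∑ j, ∑ b, F a b i j := by
          intro F
          have e1 : ∑ a, ∑ b, ∑ i, ∑ j, F a b i j = ∑ a, ∑ i, ∑ b, ∑ j, F a b i j :=
            Finset.sum_congr rfl fun a _ => Finset.sum_comm
          have e2 : ∑ a, ∑ i, ∑ b, ∑ j, F a b i j = ∑ a, ∑ i, ∑ j, ∑ b, F a b i j :=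
            Finset.sum_congr rfl fun a _ => Finset.sum_congr rfl fun i _ => Finset.sum_comm
          rw [e1, e2]
          exact Finset.sum_comm
        rw [c1]
        refine Finset.sum_congr rfl fun i _ => Finset.sum_congr rfl fun a _ =>
          Finset.sum_congr rfl fun j _ => Finset.sum_congr rfl fun b _ => ?_
        simp only [RCLike.star_def]
        ring
      rw [e]
      exact h1

lemma hv_min (B : Fin 3 → Fin 3 → Matrix (Fin 3) (Fin 3) ℂ) (p q : Fin 3) (z w : Fin 3 → ℂ) :
    hv (Bmin B p q) z w = z p * w q * conj (z p) * conj (w q) +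
      hv B (fun i => if i = p then 0 else z i) (fun a => if a = q then 0 else w a) := by
  have h : ∀ i a j b, Bmin B p q i j a b * (z i * w a * conj (z j) * conj (w b)) =
      (if i = p then (if a = q then (if j = p then (if b = q then
        z p * w q * conj (z p) * conj (w q) else 0) else 0) else 0) else 0) +
      B i j a b * ((if i = p then 0 else z i) * (if a = q then 0 else w a) *
        conj (if j = p then 0 else z j) * conj (if b = q then 0 else w b)) := by
    intro i a j b
    simp only [Bmin, Matrix.of_apply]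
    by_cases h1 : i = p <;> by_cases h2 : j = p <;> by_cases h3 : a = q <;> by_cases h4 : b = q <;>
      simp [h1, h2, h3, h4]
  unfold hv
  simp only [h, Finset.sum_add_distrib]
  congr 1
  simp

lemma min_re (B : Fin 3 → Fin 3 → Matrix (Fin 3) (Fin 3) ℂ)
    (hB : ∀ i j a b, B j i b a = conj (B i j a b)) (hh : ∀ z w, 0 ≤ (hv B z w).re)
    (p q : Fin 3) : 0 ≤ (Phi6 (Bmin B p q)).re := by
  refine core_re _ (fun i j a b => ?_) fun z w => ?_
  · simp only [Bmin, Matrix.of_apply]
    by_cases h1 : i = p <;> by_cases h2 : j = p <;> by_cases h3 : a = q <;> by_cases h4 : b = q <;>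
      simp [h1, h2, h3, h4, hB i j a b]
  · rw [hv_min, Complex.add_re]
    refine add_nonneg ?_ (hh _ _)
    have e : z p * w q * conj (z p) * conj (w q) = ((‖z p‖ ^ 2 * ‖w q‖ ^ 2 : ℝ) : ℂ) := by
      have e1 := Complex.mul_conj' (z p)
      have e2 := Complex.mul_conj' (w q)
      push_cast
      rw [← e1, ← e2]
      ring
    rw [e, Complex.ofReal_re]
    positivity

lemma hv_single (B : Fin 3 → Fin 3 → Matrix (Fin 3) (Fin 3) ℂ) (i a : Fin 3) :
    hv B (Pi.single i 1) (Pi.single a 1) = B i i a a := by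
  unfold hv
  have h : ∀ i' a' j b, B i' j a' b * ((Pi.single i 1 : Fin 3 → ℂ) i' *
      (Pi.single a 1 : Fin 3 → ℂ) a' * conj ((Pi.single i 1 : Fin 3 → ℂ) j) *
        conj ((Pi.single a 1 : Fin 3 → ℂ) b)) =
      if i' = i then (if a' = a then (if j = i then (if b = a then B i i a a else 0) else 0)
        else 0) else 0 := by
    intro i' a' j b
    by_cases h1 : i' = i <;> by_cases h2 : a' = a <;> by_cases h3 : j = i <;>
      by_cases h4 : b = a <;> simp [h1, h2, h3, h4, Pi.single_apply]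
  simp only [h]
  simp

/-- the first part, quantitative -/
lemma phi_quant (B : Fin 3 → Fin 3 → Matrix (Fin 3) (Fin 3) ℂ)
    (hB : ∀ i j a b, B j i b a = conj (B i j a b)) (hh : ∀ z w, 0 ≤ (hv B z w).re)
    (δ : ℝ) (hδ : 0 ≤ δ) : 6 * δ ^ 3 ≤ (Phi6 (Bsh B (δ : ℂ))).re := by
  rw [Phi6_shift]
  have h1 := core_re B hB hh
  have h2 : 0 ≤ ((δ : ℂ) * ∑ p, ∑ q, Phi6 (Bmin B p q)).re := by
    rw [Complex.re_ofReal_mul]
    refine mul_nonneg hδ ?_
    simp only [Complex.re_sum]
    exact Finset.sum_nonneg fun p _ => Finset.sum_nonneg fun q _ => min_re B hB hh p q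
  have h3 : 0 ≤ (2 * (δ : ℂ) ^ 2 * ∑ i, ∑ a, B i i a a).re := by
    have e : 2 * (δ : ℂ) ^ 2 = ((2 * δ ^ 2 : ℝ) : ℂ) := by push_cast; ring
    rw [e, Complex.re_ofReal_mul]
    refine mul_nonneg (by positivity) ?_
    simp only [Complex.re_sum]
    refine Finset.sum_nonneg fun i _ => Finset.sum_nonneg fun a _ => ?_
    have := hh (Pi.single i 1) (Pi.single a 1)
    rw [hv_single] at this
    exact this
  have h4 : (6 * (δ : ℂ) ^ 3).re = 6 * δ ^ 3 := by
    have e : 6 * (δ : ℂ) ^ 3 = ((6 * δ ^ 3 : ℝ) : ℂ) := by push_cast; ring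
    rw [e, Complex.ofReal_re]
  rw [Complex.add_re, Complex.add_re, Complex.add_re, h4]
  linarith

lemma SS_shift (B : Fin 3 → Fin 3 → Matrix (Fin 3) (Fin 3) ℂ) (δ : ℂ) (κ : J6 → J6 → ℂ) :
    SS (Bsh B δ) κ = SS B κ + δ * ∑ i : Fin 3, ∑ a : Fin 3,
      (κ (i, false) (i, false) * κ (a, true) (a, true) +
        κ (i, false) (a, true) * κ (a, true) (i, false)) := by
  obtain ⟨G, hG⟩ : ∃ G : Fin 3 → Fin 3 → ℂ, ∀ i a, G i a =
      κ (i, false) (i, false) * κ (a, true) (a, true) +
        κ (i, false) (a, true) * κ (a, true) (i, false) := ⟨_, fun _ _ => rfl⟩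
  obtain ⟨F, hF⟩ : ∃ F : Fin 3 → Fin 3 → Fin 3 → Fin 3 → ℂ, ∀ i a j b, F i a j b =
      κ (i, false) (j, false) * κ (a, true) (b, true) +
        κ (i, false) (b, true) * κ (a, true) (j, false) := ⟨_, fun _ _ _ _ => rfl⟩
  unfold SS
  simp only [← hG, ← hF]
  have h : ∀ i a j b, Bsh B δ i j a b * F i a j b =
      B i j a b * F i a j b + (if i = j then (if a = b then δ * G i a else 0) else 0) := by
    intro i a j b
    simp only [Bsh, Matrix.of_apply]
    by_cases h1 : i = j
    · subst h1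
      by_cases h2 : a = b
      · subst h2; simp only [if_true, hF, hG]; ring
      · simp [h2]
    · simp [h1]
  simp only [h, Finset.sum_add_distrib, Finset.mul_sum]
  congr 1
  refine Finset.sum_congr rfl fun i _ => Finset.sum_congr rfl fun a _ => ?_
  simp

/-- the second part, quantitative -/
lemma ss_quant (B : Fin 3 → Fin 3 → Matrix (Fin 3) (Fin 3) ℂ)
    (hh : ∀ z w, 0 ≤ (hv B z w).re) (δ : ℝ) (hδ : 0 ≤ δ) (η : ℝ) (hη : 0 ≤ η) (κ : J6 → J6 → ℂ)
    (hκ : ∀ k l, κ l k = conj (κ k l))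
    (hκ1 : ∀ c : J6 → ℂ, η * ∑ k, ‖c k‖ ^ 2 ≤ (∑ k, ∑ l, κ k l * (c k * conj (c l))).re) :
    9 * (δ * η ^ 2) ≤ (SS (Bsh B (δ : ℂ)) κ).re := by
  have hpsd : (Matrix.of κ).PosSemidef := psd_of_re hκ fun c =>
    (mul_nonneg hη (Finset.sum_nonneg fun k _ => by positivity)).trans (hκ1 c)
  obtain ⟨D, hD⟩ := fac hpsd
  have h1 : 0 ≤ (SS B κ).re := by
    refine SS_nonneg B hh κ (fun k c => conj (D c k)) fun k l => ?_
    have := congrFun (congrFun hD k) l
    rw [Matrix.of_apply, Matrix.mul_apply] at this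
    rw [this]
    exact Finset.sum_congr rfl fun c _ => by
      rw [Matrix.conjTranspose_apply, Complex.conj_conj]; rfl
  have hdiag : ∀ k, ∃ x : ℝ, η ≤ x ∧ κ k k = (x : ℂ) := by
    intro k
    refine ⟨(κ k k).re, ?_, ?_⟩
    · have h := hκ1 (Pi.single k 1)
      have e1 : ∑ k', ‖(Pi.single k 1 : J6 → ℂ) k'‖ ^ 2 = 1 := by
        rw [Finset.sum_eq_single k]
        · simp
        · intro b _ hb
          simp [hb]
        · intro h; exact absurd (Finset.mem_univ _) h
      have e2 : ∑ k', ∑ l, κ k' l * ((Pi.single k 1 : J6 → ℂ) k' *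
          conj ((Pi.single k 1 : J6 → ℂ) l)) = κ k k := by
        have e3 : ∀ k' l, κ k' l * ((Pi.single k 1 : J6 → ℂ) k' *
            conj ((Pi.single k 1 : J6 → ℂ) l)) =
            if k' = k then (if l = k then κ k k else 0) else 0 := by
          intro k' l
          by_cases h1 : k' = k <;> by_cases h2 : l = k <;> simp [h1, h2, Pi.single_apply]
        simp only [e3]
        simp
      rw [e1, e2, mul_one] at h
      exact h
    · exact (Complex.conj_eq_iff_re.1 (hκ k k).symm).symm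
  have h2 : 9 * η ^ 2 ≤ (∑ i : Fin 3, ∑ a : Fin 3,
      (κ (i, false) (i, false) * κ (a, true) (a, true) +
        κ (i, false) (a, true) * κ (a, true) (i, false))).re := by
    simp only [Complex.re_sum]
    have e : (9 : ℝ) * η ^ 2 = ∑ i : Fin 3, ∑ a : Fin 3, η ^ 2 := by
      simp only [Finset.sum_const, Finset.card_univ, Fintype.card_fin, nsmul_eq_mul]
      push_cast; ring
    rw [e]
    refine Finset.sum_le_sum fun i _ => Finset.sum_le_sum fun a _ => ?_
    obtain ⟨x, hx, hx'⟩ := hdiag (i, false)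
    obtain ⟨y, hy, hy'⟩ := hdiag (a, true)
    rw [hκ (i, false) (a, true), Complex.mul_conj, hx', hy', ← Complex.ofReal_mul,
      ← Complex.ofReal_add, Complex.ofReal_re]
    have h3 := Complex.normSq_nonneg (κ (i, false) (a, true))
    nlinarith [mul_le_mul hx hy hη (hη.trans hx)]
  rw [SS_shift, Complex.add_re, Complex.re_ofReal_mul]
  have h3 := mul_le_mul_of_nonneg_left h2 hδ
  nlinarith

end Pool.Agent.N256.UR
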