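import Pool.Agent.N256.UR.Coord

/-!
# The coordinate theorem, part 2
-/

set_option autoImplicit false

namespace Pool.Agent.N256.UR

open Finset MeasureTheory Pool.Agent.TH598.GV Pool.Agent.R735.HA H864R3
open scoped ComplexConjugate ComplexOrder

/-- elementary arrays of pure type -/
noncomputable def bas (k : J6) : J6 → J6 → ℂ := fun i j =>
  (if i = (k.1 + 1, k.2) then 1 else 0) * (if j = (k.1 + 2, k.2) then 1 else 0)

lemma Sf_bas (H : J6 → J6 → J6 → J6 → ℂ) (k l : J6) : Sf H (bas k) (bas l) = Kd H k l := by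
  unfold Sf
  have h : ∀ i j i' j', H i j i' j' * (bas k i j * conj (bas l i' j')) =
      if i = (k.1 + 1, k.2) then (if j = (k.1 + 2, k.2) then (if i' = (l.1 + 1, l.2) then
        (if j' = (l.1 + 2, l.2) then Kd H k l else 0) else 0) else 0) else 0 := by
    intro i j i' j'
    unfold bas
    by_cases h1 : i = (k.1 + 1, k.2)
    · by_cases h2 : j = (k.1 + 2, k.2)
      · by_cases h3 : i' = (l.1 + 1, l.2)
        · by_cases h4 : j' = (l.1 + 2, l.2)
          · subst h1; subst h2; subst h3; subst h4; simp [Kd]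
          · simp [h4]
        · simp [h3]
      · simp [h2]
    · simp [h1]
  simp only [h]
  simp

lemma isym {α : Type} [DecidableEq α] (a b : α) (x : ℂ) :
    (if a = b then x else 0) = if b = a then x else 0 := by
  by_cases h : a = b
  · rw [if_pos h, if_pos h.symm]
  · rw [if_neg h, if_neg fun h' => h h'.symm]

lemma UU_HS' : HS (UU : J6 → J6 → J6 → J6 → ℂ) := by
  constructor
  · intro i j k l
    have e : ∀ (P : Prop) [Decidable P], conj (if P then (1 : ℂ) else 0) = if P then 1 else 0 := by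
      intro P _
      split_ifs <;> simp
    simp only [UU, map_sub, map_mul, e]
    rw [isym k i, isym l j, isym k j, isym l i]
    ring
  · intro i j k l
    simp only [UU]
    ring

lemma Kd_UU (k l : J6) : Kd UU k l = if k = l then 1 else 0 := by
  obtain ⟨u, s⟩ := k
  obtain ⟨v, t⟩ := l
  simp only [Kd, UU]
  fin_cases u <;> fin_cases v <;> cases s <;> cases t <;> simp

/-- arrays of pure type with given coordinates -/
noncomputable def arr (c : J6 → ℂ) : J6 → J6 → ℂ := fun i j => ∑ k, c k * bas k i j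

lemma arr_pure (c : J6 → ℂ) (i j : J6) (h : i.2 ≠ j.2) : arr c i j = 0 := by
  unfold arr bas
  refine Finset.sum_eq_zero fun k _ => ?_
  by_cases h1 : i = (k.1 + 1, k.2)
  · by_cases h2 : j = (k.1 + 2, k.2)
    · exact absurd (by rw [h1, h2]) h
    · rw [if_neg h2]; ring
  · rw [if_neg h1]; ring

lemma Sf_arr (H : J6 → J6 → J6 → J6 → ℂ) (c : J6 → ℂ) :
    Sf H (arr c) (arr c) = ∑ k, ∑ l, Kd H k l * (c k * conj (c l)) := by
  unfold arr
  rw [Sf_sum_left H c bas]
  refine Finset.sum_congr rfl fun k _ => ?_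
  rw [Sf_sum_right H c (bas k) bas, Finset.mul_sum]
  refine Finset.sum_congr rfl fun l _ => ?_
  rw [Sf_bas]
  ring

lemma Sf_arr_UU (c : J6 → ℂ) : (Sf UU (arr c) (arr c)).re = ∑ k, ‖c k‖ ^ 2 := by
  rw [Sf_arr]
  simp only [Kd_UU, ite_mul, one_mul, zero_mul, Finset.sum_ite_eq, Finset.mem_univ, if_true]
  rw [Complex.re_sum]
  refine Finset.sum_congr rfl fun k _ => ?_
  rw [Complex.mul_conj', ← Complex.ofReal_pow, Complex.ofReal_re]

/-- **Coordinate theorem** -/
theorem block6 (H : J6 → J6 → J6 → J6 → ℂ) (hH : HS H)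
    (hb : ∀ i j k l, i.2 = j.2 → k.2 ≠ l.2 → H i j k l = 0) (δ : ℝ) (hδ : 0 ≤ δ)
    (η : ℝ) (hη : 0 ≤ η)
    (hM : ∀ z w : J6 → ℂ, (∀ k, z (k, true) = 0) → (∀ k, w (k, false) = 0) →
      δ * (qf UU z w).re ≤ (qf H z w).re)
    (hK : ∀ p : J6 → J6 → ℂ, (∀ i j, i.2 ≠ j.2 → p i j = 0) →
      η * (Sf UU p p).re ≤ (Sf H p p).re) :
    2 ^ 3 * ((2 * 3).factorial : ℝ) * ((2 * δ ^ 3 + 3 * (δ * η ^ 2)) / 5) ≤ (GG H).re := by
  obtain ⟨B, hB⟩ : ∃ B : Fin 3 → Fin 3 → Matrix (Fin 3) (Fin 3) ℂ, ∀ i j a b, B i j a b =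
      Bm H i j a b - (if i = j then (if a = b then (δ : ℂ) else 0) else 0) :=
    ⟨fun i j => Matrix.of fun a b => _, fun _ _ _ _ => rfl⟩
  have hBm : Bm H = Bsh B (δ : ℂ) := by
    funext i j
    ext a b
    rw [Bsh, Matrix.of_apply, hB]
    ring
  have hherm : ∀ i j a b, B j i b a = conj (B i j a b) := by
    intro i j a b
    have e : ∀ (P : Prop) [Decidable P] (x : ℂ), conj (if P then x else 0) =
        if P then conj x else 0 := by
      intro P _ x
      split_ifs <;> simp
    rw [hB, hB, map_sub, e, e, Complex.conj_ofReal]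
    simp only [Bm, Matrix.of_apply]
    rw [hH.herm (i, false) (a, true) (j, false) (b, true), isym b a, isym j i]
  have hhv : ∀ z w, 0 ≤ (hv B z w).re := by
    intro z w
    have h1 := hM (ze z) (we w) (fun k => by simp [ze]) (fun k => by simp [we])
    rw [qf_side, qf_side] at h1
    have h2 : hv B z w = hv (Bm H) z w - (δ : ℂ) * hv (Bm UU) z w := by
      unfold hv
      simp only [Finset.mul_sum, ← Finset.sum_sub_distrib]
      refine Finset.sum_congr rfl fun i _ => Finset.sum_congr rfl fun a _ =>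
        Finset.sum_congr rfl fun j _ => Finset.sum_congr rfl fun b _ => ?_
      have h3 : (Bm UU i j a b : ℂ) = if i = j then (if a = b then 1 else 0) else 0 := by
        simp only [Bm, Matrix.of_apply, UU]
        by_cases h1 : i = j <;> by_cases h2 : a = b <;> simp [h1, h2]
      rw [hB, h3]
      by_cases h1 : i = j <;> by_cases h2 : a = b <;> simp [h1, h2] <;> ring
    rw [h2, Complex.sub_re, Complex.re_ofReal_mul]
    linarith
  have h1 := phi_quant B hherm hhv δ hδ
  have h2 := ss_quant B hhv δ hδ η hη (Kd H) (fun k l => hH.herm _ _ _ _) (fun c => by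
    have h := hK (arr c) (arr_pure c)
    rw [Sf_arr_UU, Sf_arr] at h
    exact h)
  rw [GG_block hH hb, hBm]
  have e1 : (384 * (Phi6 (Bsh B (δ : ℂ)) + SS (Bsh B (δ : ℂ)) (Kd H))).re =
      384 * ((Phi6 (Bsh B (δ : ℂ))).re + (SS (Bsh B (δ : ℂ)) (Kd H)).re) := by
    have : (384 : ℂ) = ((384 : ℝ) : ℂ) := by push_cast; rfl
    rw [this, Complex.re_ofReal_mul, Complex.add_re]
  rw [e1]
  have e2 : ((2 * 3).factorial : ℝ) = 720 := by norm_num [Nat.factorial]
  rw [e2]
  nlinarith

end Pool.Agent.N256.UR
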