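import Pool.Agent.N256.UR.Final

/-!
# The hypotheses written out
-/

set_option autoImplicit false

namespace Pool.Agent.N256.UR

open Finset MeasureTheory Module
open Pool.Agent.W666.GB Pool.Agent.TH598.GV Pool.Agent.R735.HA

section

variable {V : Type} [NormedAddCommGroup V] [InnerProductSpace ℝ V]

/-- Gray's identity `AH₂` -/
def JInv2 (R : V → V → V → V → ℝ) (J : V →ₗ[ℝ] V) : Prop :=
  ∀ x y z w, R x y z w = R (J x) (J y) z w + R (J x) y (J z) w + R (J x) y z (J w)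

lemma shift_bisec {R : V → V → V → V → ℝ} {J : V →ₗ[ℝ] V} (hJ : HermJ J) {κ : ℝ}
    (h : ∀ x y, R x y x y + R x (J y) x (J y) + R x (J x) y (J y) ≤
      -(2 * κ * (‖x‖ ^ 2 * ‖y‖ ^ 2))) : Bisec (shiftT R κ) J := by
  intro x y
  have h1 := h x y
  have e1 := hJ.skew x y
  have e2 : inner ℝ y x = inner ℝ x y := real_inner_comm x y
  simp only [shiftT, real_inner_self_eq_norm_sq, hJ.iso, hJ.skew x y, real_inner_comm y x,
    real_inner_comm (J y) x]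
  have e4 : ‖J y‖ ^ 2 = ‖y‖ ^ 2 := by
    rw [← real_inner_self_eq_norm_sq, hJ.iso, real_inner_self_eq_norm_sq]
  linarith

lemma shift_anti {R : V → V → V → V → ℝ} {J : V →ₗ[ℝ] V} (hJ : HermJ J) {κ : ℝ}
    (h : ∀ x y, R x y x y - R x y (J x) (J y) ≤
      -(κ * (‖x‖ ^ 2 * ‖y‖ ^ 2 - inner ℝ x y ^ 2 - inner ℝ x (J y) ^ 2))) :
    Anti (shiftT R κ) J := by
  intro x y
  have h1 := h x y
  have e1 := hJ.skew x y
  have e2 : inner ℝ y x = inner ℝ x y := real_inner_comm x y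
  have e3 : inner ℝ y (J x) = -inner ℝ x (J y) := by rw [real_inner_comm, e1]
  simp only [shiftT, real_inner_self_eq_norm_sq, hJ.self, e2, e3]
  linarith

/-- under `AH₂` the second condition follows from one on sectional and bisectional curvatures -/
lemma anti_ah2 {R : V → V → V → V → ℝ} (hR : AlgCurv R) {J : V →ₗ[ℝ] V} (hJ : HermJ J)
    (hi : JInv R J) (h2 : JInv2 R J) (x y : V) :
    R x y x y - R x y (J x) (J y) =
      (R x y x y + R x (J y) x (J y) - R x (J x) y (J y)) / 2 := by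
  have a1 := h2 x y x y
  rw [j1 hR hJ hi, j3 hR hJ hi, j2 hR hJ hi] at a1
  have b1 := hR.bianchi x y (J x) (J y)
  have b2 := hR.anti x (J x) y (J y)
  have b3 : R y (J x) x (J y) = - R x (J y) (J x) y := by
    rw [hR.anti, hR.pair]
  linarith

/-- pointwise, `J`-invariant, written out -/
theorem pointJ_expl (e : OrthonormalBasis (Fin 3 × Bool) ℝ V) {R : V → V → V → V → ℝ}
    (hR : AlgCurv R) {κ η : ℝ} (hκ : 0 ≤ κ) (hη : 0 ≤ η) {J : V →ₗ[ℝ] V} (hJ : HermJ J)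
    (hi : JInv R J)
    (h1 : ∀ x y, R x y x y + R x (J y) x (J y) + R x (J x) y (J y) ≤
      -(2 * κ * (‖x‖ ^ 2 * ‖y‖ ^ 2)))
    (h2 : ∀ x y, R x y x y - R x y (J x) (J y) ≤
      -(η * (‖x‖ ^ 2 * ‖y‖ ^ 2 - inner ℝ x y ^ 2 - inner ℝ x (J y) ^ 2))) :
    twoGB κ η ≤ (-1) ^ 3 * gbc e R :=
  pointJ e hR hκ hη hJ hi (shift_bisec hJ h1) (shift_anti hJ h2)

/-- pointwise, under the identity `AH₂` -/
theorem pointJ2 (e : OrthonormalBasis (Fin 3 × Bool) ℝ V) {R : V → V → V → V → ℝ}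
    (hR : AlgCurv R) {κ η : ℝ} (hκ : 0 ≤ κ) (hη : 0 ≤ η) {J : V →ₗ[ℝ] V} (hJ : HermJ J)
    (hi : JInv R J) (hi2 : JInv2 R J)
    (h1 : ∀ x y, R x y x y + R x (J y) x (J y) + R x (J x) y (J y) ≤
      -(2 * κ * (‖x‖ ^ 2 * ‖y‖ ^ 2)))
    (h2 : ∀ x y, R x y x y + R x (J y) x (J y) - R x (J x) y (J y) ≤
      -(2 * η * (‖x‖ ^ 2 * ‖y‖ ^ 2 - inner ℝ x y ^ 2 - inner ℝ x (J y) ^ 2))) :
    twoGB κ η ≤ (-1) ^ 3 * gbc e R := by
  refine pointJ_expl e hR hκ hη hJ hi h1 (fun x y => ?_)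
  rw [anti_ah2 hR hJ hi hi2]
  have := h2 x y
  linarith

end

end Pool.Agent.N256.UR
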