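import Pool.Agent.N256.UR.JCross
import Pool.Agent.Y519.HB.Last

/-!
# The class of curvature tensors with a unitary reflection, pointwise and integrated forms
-/

set_option autoImplicit false

namespace Pool.Agent.N256.UR

open Finset MeasureTheory Module
open Pool.Agent.W666.GB Pool.Agent.TH598.GV Pool.Agent.R735.HA
open Pool.Agent.Y519.HB Pool.Agent.W669.HD

section

variable {V : Type} [NormedAddCommGroup V] [InnerProductSpace ℝ V]

/-- **Hopf sign, pointwise, `J`-invariant curvature tensors.** -/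
theorem pointJ (e : OrthonormalBasis (Fin 3 × Bool) ℝ V) {R : V → V → V → V → ℝ} (hR : AlgCurv R)
    {κ η : ℝ} (hκ : 0 ≤ κ) (hη : 0 ≤ η) {J : V →ₗ[ℝ] V} (hJ : HermJ J) (hi : JInv R J)
    (h1 : Bisec (shiftT R κ) J) (h2 : Anti (shiftT R η) J) :
    twoGB κ η ≤ (-1) ^ 3 * gbc e R := by
  obtain ⟨v, hv, hv'⟩ := exists_triple e hJ
  exact pointC e hR hκ hη (jsplit hR hJ hi h1
    (antiF_of_anti e hJ (shift_curv hR η) (shift_JInv hJ hi η) h2) hv hv')

lemma twoGB_nonneg {κ η : ℝ} (hκ : 0 ≤ κ) : 0 ≤ twoGB κ η := by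
  have h := roundGB_nonneg' 3 (κ := 1) zero_le_one
  unfold twoGB
  positivity

lemma twoGB_pos {κ η : ℝ} (hκ : 0 < κ) : 0 < twoGB κ η := by
  unfold twoGB roundGB
  have := Real.pi_pos
  positivity

/-- the case of equal constants -/
lemma twoGB_self (κ : ℝ) : twoGB κ κ = roundGB 3 κ := by
  unfold twoGB roundGB
  ring

/-- The class: some unitary frame splits `R`, or `R` is invariant under an orthogonal complex
structure `J` and satisfies the two inequalities `Bisec` and `Anti`. -/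
def ReflAt (R : V → V → V → V → ℝ) (κ η : ℝ) : Prop :=
  (∃ f : Fin 3 × Bool → V × V, UnitarySplit R κ η f) ∨
    ∃ J : V →ₗ[ℝ] V, HermJ J ∧ JInv R J ∧ Bisec (shiftT R κ) J ∧ Anti (shiftT R η) J

theorem pointR (e : OrthonormalBasis (Fin 3 × Bool) ℝ V) {R : V → V → V → V → ℝ} (hR : AlgCurv R)
    {κ η : ℝ} (hκ : 0 ≤ κ) (hη : 0 ≤ η) (h : ReflAt R κ η) :
    twoGB κ η ≤ (-1) ^ 3 * gbc e R := by
  rcases h with ⟨f, hf⟩ | ⟨J, hJ, hi, h1, h2⟩
  · exact pointC e hR hκ hη hf
  · exact pointJ e hR hκ hη hJ hi h1 h2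

/-- A block of nonpositive sectional curvature, of dimension at most five, or of dimension six and
then in the class `ReflAt`. -/
def ReflBlock (U : Submodule ℝ V) (S : V → V → V → V → ℝ) : Prop :=
  (∀ a b, S a b a b ≤ 0) ∧ (finrank ℝ U ≤ 5 ∨
    finrank ℝ U = 6 ∧ ReflAt (fun x y z w : U => S x y z w) 0 0)

/-- Orthogonal sums of such blocks, minus squares `(x ∧ y)²` with `x` in one block and `y` in one
block, minus `δ` times the unit tensor. -/
def ReflBlocks (δ : ℝ) (R : V → V → V → V → ℝ) : Prop :=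
  ∃ (r : ℕ) (U : Fin r → Submodule ℝ V) (S : Fin r → V → V → V → V → ℝ) (n : ℕ)
    (x y : Fin n → V) (p q : Fin n → Fin r), OrthSum U ∧ (∀ i, AlgCurv (S i)) ∧
    (∀ i, LivesOn (U i) (S i)) ∧ (∀ i, ReflBlock (U i) (S i)) ∧
    (∀ k, x k ∈ U (p k)) ∧ (∀ k, y k ∈ U (q k)) ∧
    ∀ a b c d, R a b c d = (∑ i, S i a b c d) - (∑ k, sqDec (x k) (y k) a b c d) -
      δ * unitT a b c d

/-- restriction of a curvature tensor to a subspace -/
lemma restr_curv {S : V → V → V → V → ℝ} (hS : AlgCurv S) (E : Submodule ℝ V) :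
    AlgCurv (fun x y z w : E => S x y z w) where
  add := fun x x' y z w => by simpa using hS.add x x' y z w
  smul := fun t x y z w => by simpa using hS.smul t x y z w
  anti := fun x y z w => hS.anti x y z w
  pair := fun x y z w => hS.pair x y z w
  bianchi := fun x y z w => hS.bianchi x y z w

/-- spaces of dimension at most five -/
lemma small_sign {k : ℕ} [FiniteDimensional ℝ V] (e : OrthonormalBasis (Fin k × Bool) ℝ V)
    {S : V → V → V → V → ℝ} (hS : AlgCurv S) (hs : ∀ a b, S a b a b ≤ 0)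
    (hd : finrank ℝ V ≤ 5) : 0 ≤ (-1) ^ k * gbc e S := by
  have h1 : FiveBlocks 0 S := by
    refine ⟨1, fun _ => ⊤, fun _ => ⊤, fun _ => ⊤, fun _ => S, fun _ _ _ _ _ => 0, 0, Fin.elim0,
      Fin.elim0, Fin.elim0, Fin.elim0, ⟨?_, ?_⟩, fun _ => le_rfl, fun _ => le_rfl, ?_, ?_,
      fun _ => hS, ?_, ?_, ?_, fun _ => hs, fun _ _ _ => le_rfl, fun k => Fin.elim0 k,
      fun k => Fin.elim0 k, ?_⟩
    · intro i j hij
      exact absurd (Subsingleton.elim i j) hij
    · simp
    · intro _; simpa using hd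
    · intro _; simpa using hd
    · intro _
      exact ⟨fun _ _ _ _ _ => by simp, fun _ _ _ _ _ => by simp, fun _ _ _ _ => by simp,
        fun _ _ _ _ => by simp, fun _ _ _ _ => by simp⟩
    · intro _ x hx y z w
      have : x = 0 := by simpa using hx
      subst this
      have := hS.smul 0 0 y z w
      simpa using this
    · intro _ x hx y z w
      rfl
    · intro a b c d
      simp
  have h2 := cls_bound e le_rfl (Or.inr (Or.inl h1))
  exact (Pool.Agent.W669.HD.roundGB_nonneg le_rfl).trans h2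

/-- the blocks have the Hopf sign on all even-dimensional subspaces -/
lemma hopf_reflBlock [FiniteDimensional ℝ V] {U : Submodule ℝ V} {S : V → V → V → V → ℝ}
    (hS : AlgCurv S) (h : ReflBlock U S) : HopfOn U S := by
  intro k E hE e
  have hfin : finrank ℝ E = 2 * k := by
    rw [finrank_eq_card_basis e.toBasis]; simp [mul_comm]
  have hle := Submodule.finrank_mono hE
  have hsmall : finrank ℝ E ≤ 5 → 0 ≤ (-1) ^ k * gbc e (fun x y z w : E => S x y z w) := fun h5 =>
    small_sign e (restr_curv hS E) (fun a b => h.1 a b) h5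
  by_cases h5 : finrank ℝ E ≤ 5
  · exact hsmall h5
  · rcases h.2 with h6 | ⟨h6, hr⟩
    · omega
    · have hk : k = 3 := by omega
      subst hk
      have hEU : E = U := Submodule.eq_of_le_of_finrank_eq hE (by omega)
      subst hEU
      exact (twoGB_nonneg le_rfl).trans (pointR e (restr_curv hS E) le_rfl le_rfl hr)

theorem refl_blocks {m : ℕ} (e : OrthonormalBasis (Fin m × Bool) ℝ V) {δ : ℝ} (hδ : 0 ≤ δ)
    {R : V → V → V → V → ℝ} (h : ReflBlocks δ R) : roundGB m δ ≤ (-1) ^ m * gbc e R := by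
  have : FiniteDimensional ℝ V := Module.Finite.of_basis e.toBasis
  obtain ⟨r, U, S, n, x, y, p, q, hO, hS, hL, hB, hx, hy, hR⟩ := h
  exact cls_bound e hδ (Or.inl ⟨r, U, S, n, x, y, p, q, hO, hS, hL,
    fun i => hopf_reflBlock (hS i) (hB i), hx, hy, hR⟩)

end

variable {M : Type} [MeasurableSpace M]

/-- the integrated form in dimension six -/
theorem fieldR (μ : Measure M) (K : CurvField 3 M) (κ η : M → ℝ)
    (h : ∀ p, 0 ≤ κ p ∧ 0 ≤ η p ∧ ReflAt (K.R p) (κ p) (η p)) :
    0 ≤ (-1) ^ 3 * ∫ p, K.gb p ∂μ ∧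
    (Integrable K.gb μ → Integrable (fun p => twoGB (κ p) (η p)) μ →
      ∫ p, twoGB (κ p) (η p) ∂μ ≤ (-1) ^ 3 * ∫ p, K.gb p ∂μ) ∧
    (Integrable K.gb μ → μ {p | 0 < κ p} ≠ 0 → 0 < (-1) ^ 3 * ∫ p, K.gb p ∂μ) := by
  have h0 : ∀ p, twoGB (κ p) (η p) ≤ (-1) ^ 3 * K.gb p := fun p =>
    pointR (K.e p) (K.curv p) (h p).1 (h p).2.1 (h p).2.2
  have h1 : ∀ p, 0 ≤ (-1) ^ 3 * K.gb p := fun p => (twoGB_nonneg (h p).1).trans (h0 p)
  refine ⟨?_, fun hi hi' => ?_, fun hi hμ => ?_⟩
  · rw [← integral_const_mul]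
    exact integral_nonneg h1
  · rw [← integral_const_mul]
    exact integral_mono hi' (hi.const_mul _) h0
  · rw [← integral_const_mul]
    rw [integral_pos_iff_support_of_nonneg h1 (hi.const_mul _)]
    refine lt_of_lt_of_le (pos_iff_ne_zero.2 hμ) (measure_mono fun p hp => ?_)
    exact ((twoGB_pos hp).trans_le (h0 p)).ne'

/-- the integrated form for block sums -/
theorem fieldB {m : ℕ} (μ : Measure M) (K : CurvField m M) (δ : M → ℝ)
    (h : ∀ p, 0 ≤ δ p ∧ ReflBlocks (δ p) (K.R p)) :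
    0 ≤ (-1) ^ m * ∫ p, K.gb p ∂μ ∧
    (Integrable K.gb μ → Integrable (fun p => roundGB m (δ p)) μ →
      ∫ p, roundGB m (δ p) ∂μ ≤ (-1) ^ m * ∫ p, K.gb p ∂μ) := by
  have h0 : ∀ p, roundGB m (δ p) ≤ (-1) ^ m * K.gb p := fun p =>
    refl_blocks (K.e p) (h p).1 (h p).2
  have h1 : ∀ p, 0 ≤ (-1) ^ m * K.gb p := fun p => (roundGB_nonneg' m (h p).1).trans (h0 p)
  refine ⟨?_, fun hi hi' => ?_⟩
  · rw [← integral_const_mul]
    exact integral_nonneg h1
  · rw [← integral_const_mul]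
    exact integral_mono hi' (hi.const_mul _) h0

end Pool.Agent.N256.UR
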