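import Pool.Agent.N256.UR.Coord2
import Pool.Agent.R735.HA.GeoH

/-!
# The Hopf sign in dimension six for curvature tensors which are invariant under a unitary
reflection of the complexified tangent space: general frames
-/

set_option autoImplicit false

namespace Pool.Agent.N256.UR

open Finset MeasureTheory Module
open Pool.Agent.W666.GB Pool.Agent.TH598.GV Pool.Agent.R735.HA
open scoped ComplexConjugate ComplexOrder

section

variable {V : Type} [NormedAddCommGroup V] [InnerProductSpace ℝ V]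

/-- The Hermitian product of the complex vectors `p.1 + i p.2` and `q.1 + i q.2`. -/
noncomputable def hin (p q : V × V) : ℂ :=
  ⟨inner ℝ p.1 q.1 + inner ℝ p.2 q.2, inner ℝ p.2 q.1 - inner ℝ p.1 q.2⟩

/-- The value `R^ℂ (p, q, conj r, conj s)` for complex vectors `p = p.1 + i p.2` and so on. -/
def cxR (R : V → V → V → V → ℝ) (p q r s : V × V) : ℂ :=
  ⟨(R p.1 q.1 r.1 s.1 - R p.1 q.1 r.2 s.2 - R p.2 q.2 r.1 s.1 + R p.2 q.2 r.2 s.2) +
    (R p.1 q.2 r.1 s.2 + R p.1 q.2 r.2 s.1 + R p.2 q.1 r.1 s.2 + R p.2 q.1 r.2 s.1),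
   (R p.1 q.2 r.1 s.1 + R p.2 q.1 r.1 s.1 - R p.1 q.2 r.2 s.2 - R p.2 q.1 r.2 s.2) -
    (R p.1 q.1 r.1 s.2 + R p.1 q.1 r.2 s.1 - R p.2 q.2 r.1 s.2 - R p.2 q.2 r.2 s.1)⟩

/-- The complex vector `∑ c k f (k, s)`. -/
noncomputable def cmb (f : Fin 3 × Bool → V × V) (s : Bool) (c : Fin 3 → ℂ) : V × V :=
  (∑ k, ((c k).re • (f (k, s)).1 - (c k).im • (f (k, s)).2),
    ∑ k, ((c k).re • (f (k, s)).2 + (c k).im • (f (k, s)).1))

/-- The value `T^ℂ (z ∧ w, conj (z ∧ w))` (the complex sectional curvature of `z`, `w`, not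
normalised). -/
def cxSec (T : V → V → V → V → ℝ) (z w : V × V) : ℝ :=
  T z.1 w.1 z.1 w.1 + T z.2 w.2 z.2 w.2 + T z.1 w.2 z.1 w.2 + T z.2 w.1 z.2 w.1 -
    2 * T z.1 w.1 z.2 w.2 + 2 * T z.1 w.2 z.2 w.1

/-- The value `T^ℂ (ω, conj ω)` for `ω = ∑ z k ∧ w k`. -/
def cxOp (T : V → V → V → V → ℝ) {n : ℕ} (z w : Fin n → V × V) : ℝ :=
  (∑ k, ∑ l, (T (z k).1 (w k).1 (z l).1 (w l).1 - T (z k).1 (w k).1 (z l).2 (w l).2 -
      T (z k).2 (w k).2 (z l).1 (w l).1 + T (z k).2 (w k).2 (z l).2 (w l).2)) +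
    ∑ k, ∑ l, (T (z k).1 (w k).2 (z l).1 (w l).2 + T (z k).1 (w k).2 (z l).2 (w l).1 +
      T (z k).2 (w k).1 (z l).1 (w l).2 + T (z k).2 (w k).1 (z l).2 (w l).1)

/-- `f` is a unitary frame of the complexified space, `E` and `E'` are the complex spans of its two
triples; the curvature operator maps `Λ² E + Λ² E'` to itself (`R` is invariant under the unitary
reflection with eigenspaces `E` and `E'`), the complex sectional curvatures of `z`, `w` with
`z ∈ E`, `w ∈ E'` are at most `-κ`, and the curvature operator on `Λ² E + Λ² E'` is at most `-η`. -/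
structure UnitarySplit (R : V → V → V → V → ℝ) (κ η : ℝ) (f : Fin 3 × Bool → V × V) : Prop where
  unit : ∀ i j, hin (f i) (f j) = if i = j then 1 else 0
  split : ∀ i j k l, i.2 = j.2 → k.2 ≠ l.2 → cxR R (f i) (f j) (f k) (f l) = 0
  bis : ∀ a b : Fin 3 → ℂ, cxSec (shiftT R κ) (cmb f false a) (cmb f true b) ≤ 0
  op : ∀ (n : ℕ) (s : Fin n → Bool) (a b : Fin n → Fin 3 → ℂ),
    cxOp (shiftT R η) (fun k => cmb f (s k) (a k)) (fun k => cmb f (s k) (b k)) ≤ 0

/-- The lower bound: `(2 κ³ + 3 κ η²) / 5` times the value of the integrand of the unit sphere. -/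
noncomputable def twoGB (κ η : ℝ) : ℝ := (2 * κ ^ 3 + 3 * (κ * η ^ 2)) / 5 * roundGB 3 1

/-- complex coordinates -/
noncomputable def co (e : OrthonormalBasis J6 ℝ V) (p : V × V) (a : J6) : ℂ :=
  ⟨e.repr p.1 a, e.repr p.2 a⟩

lemma val_sum (e : OrthonormalBasis J6 ℝ V) {R : V → V → V → V → ℝ} (hR : AlgCurv R)
    (x y z w : V) : R x y z w = ∑ a, ∑ b, ∑ c, ∑ d, R (e a) (e b) (e c) (e d) *
      (e.repr x a * e.repr y b * e.repr z c * e.repr w d) := by
  have h := rq_eq hR e (e.repr x) (e.repr y) (e.repr z) (e.repr w)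
  have e1 : ∀ x : V, vc e (e.repr x) = x := fun x => e.sum_repr x
  rw [e1, e1, e1, e1] at h
  unfold Pool.Agent.TH598.GV.rq at h
  have h2 : R x y z w = -(-R x y z w) := by ring
  rw [h2, ← h]
  simp only [← Finset.sum_neg_distrib]
  refine Finset.sum_congr rfl fun i _ => Finset.sum_congr rfl fun j _ =>
    Finset.sum_congr rfl fun k _ => Finset.sum_congr rfl fun l _ => by ring

lemma cxR_sum (e : OrthonormalBasis J6 ℝ V) {R : V → V → V → V → ℝ} (hR : AlgCurv R)
    (p q r s : V × V) : cxR R p q r s = ∑ a, ∑ b, ∑ c, ∑ d,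
      ((R (e a) (e b) (e c) (e d) : ℝ) : ℂ) *
      (co e p a * co e q b * conj (co e r c) * conj (co e s d)) := by
  obtain ⟨Rf, hRf⟩ : ∃ Rf : J6 → J6 → J6 → J6 → ℝ, ∀ a b c d,
    R (e a) (e b) (e c) (e d) = Rf a b c d := ⟨_, fun _ _ _ _ => rfl⟩
  have hval : ∀ x y z w : V, R x y z w = ∑ a, ∑ b, ∑ c, ∑ d, Rf a b c d *
      (e.repr x a * e.repr y b * e.repr z c * e.repr w d) := by
    intro x y z w
    rw [val_sum e hR]
    simp only [hRf]
  simp only [hRf]
  apply Complex.ext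
  · simp only [Complex.re_sum, Complex.re_ofReal_mul]
    unfold cxR
    simp only [hval, ← Finset.sum_sub_distrib, ← Finset.sum_add_distrib]
    refine Finset.sum_congr rfl fun a _ => Finset.sum_congr rfl fun b _ =>
      Finset.sum_congr rfl fun c _ => Finset.sum_congr rfl fun d _ => ?_
    simp only [co, Complex.mul_re, Complex.mul_im, Complex.conj_re, Complex.conj_im]
    ring
  · simp only [Complex.im_sum, Complex.im_ofReal_mul]
    unfold cxR
    simp only [hval, ← Finset.sum_sub_distrib, ← Finset.sum_add_distrib]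
    refine Finset.sum_congr rfl fun a _ => Finset.sum_congr rfl fun b _ =>
      Finset.sum_congr rfl fun c _ => Finset.sum_congr rfl fun d _ => ?_
    simp only [co, Complex.mul_re, Complex.mul_im, Complex.conj_re, Complex.conj_im]
    ring

/-- the matrix of a frame -/
noncomputable def Mf (e : OrthonormalBasis J6 ℝ V) (f : J6 → V × V) : Matrix J6 J6 ℂ :=
  Matrix.of fun a i => co e (f i) a

lemma Hc_cx (e : OrthonormalBasis J6 ℝ V) {R : V → V → V → V → ℝ} (hR : AlgCurv R)
    (f : J6 → V × V) (i j k l : J6) :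
    Hc (Mf e f) (fun a b c d => ((-R (e a) (e b) (e c) (e d) : ℝ) : ℂ)) i j k l =
      -cxR R (f i) (f j) (f k) (f l) := by
  rw [cxR_sum e hR]
  unfold Hc
  simp only [← Finset.sum_neg_distrib]
  refine Finset.sum_congr rfl fun a _ => Finset.sum_congr rfl fun b _ =>
    Finset.sum_congr rfl fun c _ => Finset.sum_congr rfl fun d _ => ?_
  simp only [Mf, Matrix.of_apply]
  push_cast
  ring

lemma Mf_unit (e : OrthonormalBasis J6 ℝ V) (f : J6 → V × V)
    (h : ∀ i j, hin (f i) (f j) = if i = j then 1 else 0) (i k : J6) :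
    ∑ a, Mf e f a i * conj (Mf e f a k) = if i = k then 1 else 0 := by
  rw [← h i k]
  have hin' : ∀ x y : V, inner ℝ x y = ∑ a, e.repr x a * e.repr y a := by
    intro x y
    rw [← e.repr.inner_map_map x y, PiLp.inner_apply]
    refine Finset.sum_congr rfl fun a _ => ?_
    simp [mul_comm]
  apply Complex.ext
  · simp only [Complex.re_sum, hin, hin', ← Finset.sum_add_distrib]
    refine Finset.sum_congr rfl fun a _ => ?_
    simp only [Mf, Matrix.of_apply, co, Complex.mul_re, Complex.conj_re, Complex.conj_im]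
    ring
  · simp only [Complex.im_sum, hin, hin', ← Finset.sum_sub_distrib]
    refine Finset.sum_congr rfl fun a _ => ?_
    simp only [Mf, Matrix.of_apply, co, Complex.mul_im, Complex.conj_re, Complex.conj_im]
    ring

/-- the coordinate theorem in a unitary frame -/
theorem splitC (H : J6 → J6 → J6 → J6 → ℂ) (hH : HS H) (M : Matrix J6 J6 ℂ)
    (hM : ∀ i k, ∑ a, M a i * conj (M a k) = if i = k then 1 else 0)
    (hb : ∀ i j k l, i.2 = j.2 → k.2 ≠ l.2 → Hc M H i j k l = 0) (δ : ℝ) (hδ : 0 ≤ δ)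
    (η : ℝ) (hη : 0 ≤ η)
    (h1 : ∀ z w : J6 → ℂ, (∀ k, z (k, true) = 0) → (∀ k, w (k, false) = 0) →
      δ * (qf UU (M.mulVec z) (M.mulVec w)).re ≤ (qf H (M.mulVec z) (M.mulVec w)).re)
    (h2 : ∀ p : J6 → J6 → ℂ, (∀ i j, i.2 ≠ j.2 → p i j = 0) →
      η * (Sf UU (fun a b => ∑ x : J6 × J6, p x.1 x.2 * (M a x.1 * M b x.2))
        (fun a b => ∑ x : J6 × J6, p x.1 x.2 * (M a x.1 * M b x.2))).re ≤
      (Sf H (fun a b => ∑ x : J6 × J6, p x.1 x.2 * (M a x.1 * M b x.2))
        (fun a b => ∑ x : J6 × J6, p x.1 x.2 * (M a x.1 * M b x.2))).re) :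
    2 ^ 3 * ((2 * 3).factorial : ℝ) * ((2 * δ ^ 3 + 3 * (δ * η ^ 2)) / 5) ≤ (GG H).re := by
  have hU : Hc M UU = UU := Hc_UU M hM
  have key := block6 (Hc M H) (Hc_HS M hH) hb δ hδ η hη (fun z w hz hw => ?_) (fun p hp => ?_)
  · have hdet : M.det * conj M.det = 1 := by
      have h1 : M.transpose * M.map conj = 1 := by
        ext i k
        rw [Matrix.mul_apply, Matrix.one_apply, ← hM i k]
        rfl
      have h2 := congrArg Matrix.det h1
      rw [Matrix.det_mul, Matrix.det_transpose, Matrix.det_one] at h2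
      have h5 : (M.map conj).det = conj M.det := by
        rw [RingHom.map_det]
        rfl
      rw [h5] at h2
      exact h2
    rw [GG_trans, hdet, one_mul] at key
    exact key
  · have := h1 z w hz hw
    rw [← qf_Hc, ← qf_Hc, hU] at this
    exact this
  · have := h2 p hp
    rw [← Sf_Hc, ← Sf_Hc, hU] at this
    exact this

end

end Pool.Agent.N256.UR
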