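import Pool.Agent.N256.UR.JSplit

/-!
# In real dimension six every anti-invariant bivector is `x ∧ y - J x ∧ J y`
-/

set_option autoImplicit false

namespace Pool.Agent.N256.UR

open Finset MeasureTheory Module
open Pool.Agent.W666.GB Pool.Agent.TH598.GV Pool.Agent.R735.HA

section

variable {V : Type} [NormedAddCommGroup V] [InnerProductSpace ℝ V]

/-- a complex combination of the triple -/
noncomputable def vecJ (J : V →ₗ[ℝ] V) (v : Fin 3 → V) (X : Fin 3 → ℂ) : V :=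
  ∑ j, ((X j).re • v j + (X j).im • J (v j))

lemma beta_vec {J : V →ₗ[ℝ] V} (v : Fin 3 → V) (β : V → V → ℝ)
    (hadd : ∀ x x' y, β (x + x') y = β x y + β x' y) (hsm : ∀ (t : ℝ) x y, β (t • x) y = t * β x y)
    (hanti : ∀ x y, β y x = - β x y) (hJJ : ∀ x y, β (J x) (J y) = - β x y)
    (hJ : ∀ x y, β x (J y) = β (J x) y) (X Y : Fin 3 → ℂ) :
    β (vecJ J v X) (vecJ J v Y) =
      ((X 1 * Y 2 - X 2 * Y 1).re * β (v 1) (v 2) + (X 1 * Y 2 - X 2 * Y 1).im * β (J (v 1)) (v 2)) +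
      ((X 2 * Y 0 - X 0 * Y 2).re * β (v 2) (v 0) + (X 2 * Y 0 - X 0 * Y 2).im * β (J (v 2)) (v 0)) +
      ((X 0 * Y 1 - X 1 * Y 0).re * β (v 0) (v 1) +
        (X 0 * Y 1 - X 1 * Y 0).im * β (J (v 0)) (v 1)) := by
  have hadd2 : ∀ x y y', β x (y + y') = β x y + β x y' := by
    intro x y y'
    rw [hanti (y + y') x, hadd, hanti y x, hanti y' x]; ring
  have hsm2 : ∀ (t : ℝ) x y, β x (t • y) = t * β x y := by
    intro t x y
    rw [hanti (t • y) x, hsm, hanti y x]; ring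
  have hz : ∀ x, β x x = 0 := by
    intro x
    have := hanti x x
    linarith
  have hanti2 : ∀ x y, β (J y) x = - β (J x) y := by
    intro x y
    rw [hanti x (J y), hJ]
  have hz2 : ∀ x, β (J x) x = 0 := by
    intro x
    have := hanti2 x x
    linarith
  unfold vecJ
  simp only [Fin.sum_univ_three, hadd, hadd2, hsm, hsm2, hJJ, hz, hJ, hz2]
  rw [hanti (v 0) (v 1), hanti (v 1) (v 2), hanti (v 2) (v 0), hanti2 (v 0) (v 1),
    hanti2 (v 1) (v 2), hanti2 (v 2) (v 0)]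
  simp only [Complex.sub_re, Complex.sub_im, Complex.mul_re, Complex.mul_im]
  ring

lemma cross_surj (P : Fin 3 → ℂ) : ∃ X Y : Fin 3 → ℂ, X 1 * Y 2 - X 2 * Y 1 = P 0 ∧
    X 2 * Y 0 - X 0 * Y 2 = P 1 ∧ X 0 * Y 1 - X 1 * Y 0 = P 2 := by
  by_cases h2 : P 2 = 0
  · by_cases h1 : P 1 = 0
    · by_cases h0 : P 0 = 0
      · exact ⟨0, 0, by simp [h0, h1, h2]⟩
      · refine ⟨![-P 2 / P 0, 0, 1], ![P 1, -P 0, 0], ?_, ?_, ?_⟩
        · simp
        · simp
        · simp; field_simp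
    · refine ⟨![1, -P 0 / P 1, 0], ![0, P 2, -P 1], ?_, ?_, ?_⟩
      · simp; field_simp
      · simp
      · simp
  · refine ⟨![0, 1, -P 1 / P 2], ![-P 2, 0, P 0], ?_, ?_, ?_⟩
    · simp
    · simp; field_simp
    · simp

/-- the triple and its image under `J` span -/
lemma vecJ_surj (e : OrthonormalBasis (Fin 3 × Bool) ℝ V) {J : V →ₗ[ℝ] V} (hJ : HermJ J)
    {v : Fin 3 → V} (h1 : ∀ i j, inner ℝ (v i) (v j) = if i = j then (1 : ℝ) else 0)
    (h2 : ∀ i j, inner ℝ (v i) (J (v j)) = 0) (x : V) : ∃ X, vecJ J v X = x := by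
  have hfin : finrank ℝ V = 6 := by
    rw [finrank_eq_card_basis e.toBasis]; simp
  have : FiniteDimensional ℝ V := Module.finite_of_finrank_pos (by rw [hfin]; norm_num)
  obtain ⟨g, hg⟩ : ∃ g : Fin 3 × Bool → V, ∀ i, g i = if i.2 then J (v i.1) else v i.1 :=
    ⟨_, fun _ => rfl⟩
  have horth : Orthonormal ℝ g := by
    rw [orthonormal_iff_ite]
    rintro ⟨i, s⟩ ⟨j, t⟩
    have h3 : inner ℝ (J (v i)) (v j) = (0 : ℝ) := by
      rw [real_inner_comm]; exact h2 j i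
    cases s <;> cases t <;> simp [hg, h1, h2, h3, hJ.iso, Prod.ext_iff]
  have hcard : Fintype.card (Fin 3 × Bool) = finrank ℝ V := by rw [hfin]; simp
  let b := basisOfOrthonormalOfCardEqFinrank horth hcard
  have hb : ∀ i, b i = g i := fun i => by
    simp [b, coe_basisOfOrthonormalOfCardEqFinrank]
  refine ⟨fun j => ⟨b.repr x (j, false), b.repr x (j, true)⟩, ?_⟩
  have h := b.sum_repr x
  rw [Fintype.sum_prod_type] at h
  unfold vecJ
  rw [← h]
  refine Finset.sum_congr rfl fun j _ => ?_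
  rw [Fintype.sum_bool, hb, hb, hg, hg]
  simp only [if_true, Bool.false_eq_true, if_false]
  rw [add_comm]
  rw [h]

/-- the operator condition follows from the condition on pairs -/
theorem antiF_of_anti (e : OrthonormalBasis (Fin 3 × Bool) ℝ V) {J : V →ₗ[ℝ] V} (hJ : HermJ J)
    {T : V → V → V → V → ℝ} (hT : AlgCurv T) (hi : JInv T J) (h : Anti T J) : AntiF T J := by
  obtain ⟨v, hv, hv'⟩ := exists_triple e hJ
  intro n a b
  obtain ⟨β, hβ⟩ : ∃ β : V → V → V → V → ℝ, ∀ u w x y, β u w x y = T x y u w - T (J x) (J y) u w :=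
    ⟨_, fun _ _ _ _ => rfl⟩
  have hexp : ∀ (u w : V) (X Y : Fin 3 → ℂ), β u w (vecJ J v X) (vecJ J v Y) =
      ((X 1 * Y 2 - X 2 * Y 1).re * β u w (v 1) (v 2) +
        (X 1 * Y 2 - X 2 * Y 1).im * β u w (J (v 1)) (v 2)) +
      ((X 2 * Y 0 - X 0 * Y 2).re * β u w (v 2) (v 0) +
        (X 2 * Y 0 - X 0 * Y 2).im * β u w (J (v 2)) (v 0)) +
      ((X 0 * Y 1 - X 1 * Y 0).re * β u w (v 0) (v 1) +
        (X 0 * Y 1 - X 1 * Y 0).im * β u w (J (v 0)) (v 1)) := by
    intro u w X Y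
    refine beta_vec v (β u w) ?_ ?_ ?_ ?_ ?_ X Y
    · intro x x' y
      simp only [hβ, map_add, hT.add]; ring
    · intro t x y
      simp only [hβ, map_smul, hT.smul]; ring
    · intro x y
      simp only [hβ]
      rw [hT.anti x y, hT.anti (J x) (J y)]; ring
    · intro x y
      simp only [hβ, hJ.sq, n1 hT, n2 hT]; ring
    · intro x y
      simp only [hβ, hJ.sq, n1 hT, n2 hT]; ring
  have hsym : ∀ x y u w, β u w x y = β x y u w := by
    intro x y u w
    rw [hβ, hβ, hT.pair x y u w, j1 hT hJ hi x y u w, ← hT.pair x y (J u) (J w)]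
  choose A hA using vecJ_surj e hJ hv hv'
  obtain ⟨X, Y, h0, h1, h2⟩ := cross_surj ![∑ k, (A (a k) 1 * A (b k) 2 - A (a k) 2 * A (b k) 1),
    ∑ k, (A (a k) 2 * A (b k) 0 - A (a k) 0 * A (b k) 2),
    ∑ k, (A (a k) 0 * A (b k) 1 - A (a k) 1 * A (b k) 0)]
  obtain ⟨x, hx⟩ : ∃ x, vecJ J v X = x := ⟨_, rfl⟩
  obtain ⟨y, hy⟩ : ∃ y, vecJ J v Y = y := ⟨_, rfl⟩
  have hsum : ∀ u w, ∑ k, β u w (a k) (b k) = β u w x y := by
    intro u w
    rw [← hx, ← hy, hexp u w X Y, h0, h1, h2]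
    have h3 : ∀ k, β u w (a k) (b k) = β u w (vecJ J v (A (a k))) (vecJ J v (A (b k))) := by
      intro k
      rw [hA, hA]
    simp only [h3, hexp]
    simp only [Matrix.cons_val_zero, Matrix.cons_val_one, Matrix.cons_val, Complex.re_sum,
      Complex.im_sum, Finset.sum_mul, Finset.sum_add_distrib]
  have hfin : ∑ k, ∑ l, (T (a k) (b k) (a l) (b l) - T (a k) (b k) (J (a l)) (J (b l))) =
      β x y x y := by
    have h4 : ∀ k l, T (a k) (b k) (a l) (b l) - T (a k) (b k) (J (a l)) (J (b l)) =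
        β (a l) (b l) (a k) (b k) := by
      intro k l
      rw [hβ, j1 hT hJ hi]
    simp only [h4]
    rw [Finset.sum_comm]
    simp only [hsum]
    rw [Finset.sum_congr rfl fun l _ => hsym x y (a l) (b l), hsum]
  rw [hfin, hβ, j1 hT hJ hi]
  exact h x y

end

end Pool.Agent.N256.UR
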