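import Pool.Agent.N256.UR.Point

/-!
# Orthogonal complex structures: adapted frames
-/

set_option autoImplicit false

namespace Pool.Agent.N256.UR

open Finset MeasureTheory Module
open Pool.Agent.W666.GB Pool.Agent.TH598.GV Pool.Agent.R735.HA

section

variable {V : Type} [NormedAddCommGroup V] [InnerProductSpace ℝ V]

/-- `J` is an orthogonal complex structure. -/
structure HermJ (J : V →ₗ[ℝ] V) : Prop where
  iso : ∀ x y : V, inner ℝ (J x) (J y) = inner ℝ x y
  sq : ∀ x : V, J (J x) = -x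

/-- `R` is `J`-invariant (the identity `AH₃` of Gray). -/
def JInv (R : V → V → V → V → ℝ) (J : V →ₗ[ℝ] V) : Prop :=
  ∀ x y z w, R (J x) (J y) (J z) (J w) = R x y z w

/-- the condition on the mixed bivectors (bisectional curvature) -/
def Bisec (T : V → V → V → V → ℝ) (J : V →ₗ[ℝ] V) : Prop :=
  ∀ x y, T x y x y + T x (J y) x (J y) + T x (J x) y (J y) ≤ 0

/-- the condition on the bivectors `x ∧ y - J x ∧ J y` -/
def Anti (T : V → V → V → V → ℝ) (J : V →ₗ[ℝ] V) : Prop :=
  ∀ x y, T x y x y - T x y (J x) (J y) ≤ 0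

lemma HermJ.skew {J : V →ₗ[ℝ] V} (hJ : HermJ J) (x y : V) :
    inner ℝ (J x) y = - inner ℝ x (J y) := by
  have h := hJ.iso (J x) y
  rw [hJ.sq, inner_neg_left] at h
  linarith

lemma HermJ.self {J : V →ₗ[ℝ] V} (hJ : HermJ J) (x : V) : inner ℝ x (J x) = 0 := by
  have h := hJ.skew x x
  rw [real_inner_comm] at h
  linarith

lemma exists_perp (e : OrthonormalBasis (Fin 3 × Bool) ℝ V) {n : ℕ} (u : Fin n → V) (h : n < 6) :
    ∃ v : V, ‖v‖ = 1 ∧ ∀ i, inner ℝ (u i) v = 0 := by
  have hfin : finrank ℝ V = 6 := by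
    rw [finrank_eq_card_basis e.toBasis]; simp
  have : FiniteDimensional ℝ V := Module.finite_of_finrank_pos (by rw [hfin]; norm_num)
  let L : V →ₗ[ℝ] (Fin n → ℝ) := LinearMap.pi fun i => (innerₛₗ ℝ (u i))
  have h1 : finrank ℝ (Fin n → ℝ) < finrank ℝ V := by
    rw [hfin]; simpa using h
  have h2 := LinearMap.ker_ne_bot_of_finrank_lt (f := L) h1
  obtain ⟨x, hx, hx0⟩ := Submodule.exists_mem_ne_zero_of_ne_bot h2
  have hn : ‖x‖ ≠ 0 := by simpa using hx0
  refine ⟨(‖x‖⁻¹ : ℝ) • x, ?_, fun i => ?_⟩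
  · rw [norm_smul, norm_inv, norm_norm]
    exact inv_mul_cancel₀ hn
  · have h3 := congrFun (LinearMap.mem_ker.mp hx) i
    rw [inner_smul_right]
    have h4 : inner ℝ (u i) x = 0 := h3
    rw [h4, mul_zero]

/-- a unitary triple -/
lemma exists_triple (e : OrthonormalBasis (Fin 3 × Bool) ℝ V) {J : V →ₗ[ℝ] V} (hJ : HermJ J) :
    ∃ v : Fin 3 → V, (∀ i j, inner ℝ (v i) (v j) = if i = j then (1 : ℝ) else 0) ∧
      ∀ i j, inner ℝ (v i) (J (v j)) = 0 := by
  obtain ⟨a, ha, -⟩ := exists_perp e (n := 0) (fun _ => 0) (by norm_num)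
  obtain ⟨b, hb, hb'⟩ := exists_perp e (n := 2) ![a, J a] (by norm_num)
  obtain ⟨c, hc, hc'⟩ := exists_perp e (n := 4) ![a, J a, b, J b] (by norm_num)
  have hb0 : inner ℝ a b = 0 := hb' 0
  have hb1 : inner ℝ (J a) b = 0 := hb' 1
  have hc0 : inner ℝ a c = 0 := hc' 0
  have hc1 : inner ℝ (J a) c = 0 := hc' 1
  have hc2 : inner ℝ b c = 0 := hc' 2
  have hc3 : inner ℝ (J b) c = 0 := hc' 3
  have haa : inner ℝ a a = (1 : ℝ) := by rw [real_inner_self_eq_norm_sq, ha]; norm_num
  have hbb : inner ℝ b b = (1 : ℝ) := by rw [real_inner_self_eq_norm_sq, hb]; norm_num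
  have hcc : inner ℝ c c = (1 : ℝ) := by rw [real_inner_self_eq_norm_sq, hc]; norm_num
  refine ⟨![a, b, c], ?_, ?_⟩
  · intro i j
    fin_cases i <;> fin_cases j
    · simpa using haa
    · simpa using hb0
    · simpa using hc0
    · simpa [real_inner_comm] using hb0
    · simpa using hbb
    · simpa using hc2
    · simpa [real_inner_comm] using hc0
    · simpa [real_inner_comm] using hc2
    · simpa using hcc
  · have sk : ∀ x y : V, inner ℝ (J x) y = 0 → inner ℝ x (J y) = (0 : ℝ) := by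
      intro x y h
      have := hJ.skew x y
      linarith
    have sk2 : ∀ x y : V, inner ℝ (J x) y = 0 → inner ℝ y (J x) = (0 : ℝ) := by
      intro x y h
      rw [real_inner_comm]; exact h
    intro i j
    fin_cases i <;> fin_cases j
    · exact hJ.self a
    · exact sk _ _ hb1
    · exact sk _ _ hc1
    · exact sk2 _ _ hb1
    · exact hJ.self b
    · exact sk _ _ hc3
    · exact sk2 _ _ hc1
    · exact sk2 _ _ hc3
    · exact hJ.self c

/-- the frame -/
noncomputable def jf (J : V →ₗ[ℝ] V) (v : Fin 3 → V) (i : Fin 3 × Bool) : V × V :=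
  ((√2)⁻¹ • v i.1, (if i.2 then (√2)⁻¹ else -(√2)⁻¹ : ℝ) • J (v i.1))

lemma c_sq : ((√2)⁻¹ : ℝ) * (√2)⁻¹ = 1 / 2 := by
  rw [← mul_inv, Real.mul_self_sqrt (by norm_num)]
  norm_num

lemma jf_unit {J : V →ₗ[ℝ] V} (hJ : HermJ J) {v : Fin 3 → V}
    (h1 : ∀ i j, inner ℝ (v i) (v j) = if i = j then (1 : ℝ) else 0)
    (h2 : ∀ i j, inner ℝ (v i) (J (v j)) = 0) (i j : Fin 3 × Bool) :
    hin (jf J v i) (jf J v j) = if i = j then 1 else 0 := by
  obtain ⟨i, s⟩ := i
  obtain ⟨j, t⟩ := j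
  have h3 : ∀ i j, inner ℝ (J (v i)) (v j) = 0 := fun i j => by
    rw [real_inner_comm]; exact h2 j i
  have hc := c_sq
  apply Complex.ext
  · simp only [hin, jf, inner_smul_left, inner_smul_right, hJ.iso, h1, conj_trivial]
    by_cases hij : i = j
    · subst hij
      cases s <;> cases t <;> simp <;> linarith
    · have : ¬ ((i, s) = (j, t)) := fun h => hij (by simpa using (Prod.mk.inj h).1)
      rw [if_neg hij, if_neg this]
      simp
  · simp only [hin, jf, inner_smul_left, inner_smul_right, h2, h3, conj_trivial]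
    split_ifs <;> simp

end

end Pool.Agent.N256.UR
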