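import Pool.Agent.N256.UR.JFrame

/-!
# `J`-invariant curvature tensors split
-/

set_option autoImplicit false

namespace Pool.Agent.N256.UR

open Finset MeasureTheory Module
open Pool.Agent.W666.GB Pool.Agent.TH598.GV Pool.Agent.R735.HA

section

variable {V : Type} [NormedAddCommGroup V] [InnerProductSpace ℝ V]

/-! ### multilinearity -/

lemma s1 {T : V → V → V → V → ℝ} (hT : AlgCurv T) (t : ℝ) (x y z w : V) :
    T (t • x) y z w = t * T x y z w := hT.smul t x y z w
lemma s2 {T : V → V → V → V → ℝ} (hT : AlgCurv T) (t : ℝ) (x y z w : V) :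
    T x (t • y) z w = t * T x y z w := by
  rw [hT.anti, hT.smul, hT.anti y x]; ring
lemma s3 {T : V → V → V → V → ℝ} (hT : AlgCurv T) (t : ℝ) (x y z w : V) :
    T x y (t • z) w = t * T x y z w := by
  rw [hT.pair, s1 hT, hT.pair]
lemma s4 {T : V → V → V → V → ℝ} (hT : AlgCurv T) (t : ℝ) (x y z w : V) :
    T x y z (t • w) = t * T x y z w := by
  rw [hT.pair, s2 hT, hT.pair]
lemma n1 {T : V → V → V → V → ℝ} (hT : AlgCurv T) (x y z w : V) :
    T (-x) y z w = - T x y z w := by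
  have := s1 hT (-1) x y z w
  rw [neg_one_smul] at this; rw [this]; ring
lemma n2 {T : V → V → V → V → ℝ} (hT : AlgCurv T) (x y z w : V) :
    T x (-y) z w = - T x y z w := by
  have := s2 hT (-1) x y z w
  rw [neg_one_smul] at this; rw [this]; ring
lemma n3 {T : V → V → V → V → ℝ} (hT : AlgCurv T) (x y z w : V) :
    T x y (-z) w = - T x y z w := by
  have := s3 hT (-1) x y z w
  rw [neg_one_smul] at this; rw [this]; ring
lemma n4 {T : V → V → V → V → ℝ} (hT : AlgCurv T) (x y z w : V) :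
    T x y z (-w) = - T x y z w := by
  have := s4 hT (-1) x y z w
  rw [neg_one_smul] at this; rw [this]; ring

variable {J : V →ₗ[ℝ] V} {T : V → V → V → V → ℝ}

/-- the invariance identities -/
lemma j1 (hT : AlgCurv T) (hJ : HermJ J) (hi : JInv T J) (x y z w : V) :
    T (J x) (J y) z w = T x y (J z) (J w) := by
  rw [← hi x y (J z) (J w), hJ.sq, hJ.sq, n3 hT, n4 hT, neg_neg]
lemma j2 (hT : AlgCurv T) (hJ : HermJ J) (hi : JInv T J) (x y z w : V) :
    T (J x) y z (J w) = T x (J y) (J z) w := by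
  rw [← hi x (J y) (J z) w, hJ.sq, hJ.sq, n2 hT, n3 hT, neg_neg]
lemma j3 (hT : AlgCurv T) (hJ : HermJ J) (hi : JInv T J) (x y z w : V) :
    T (J x) y (J z) w = T x (J y) z (J w) := by
  rw [← hi x (J y) z (J w), hJ.sq, hJ.sq, n2 hT, n4 hT, neg_neg]

lemma shift_JInv {R : V → V → V → V → ℝ} (hJ : HermJ J) (hi : JInv R J) (κ : ℝ) :
    JInv (shiftT R κ) J := by
  intro x y z w
  simp only [shiftT, hi x y z w, hJ.iso]

/-- the real part of the split identity and the imaginary one -/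
lemma split_core (hT : AlgCurv T) (hJ : HermJ J) (hi : JInv T J) (a s t : ℝ) (hs : s * s = a * a)
    (ht : t * t = a * a) (x y z w : V) :
    cxR T (a • x, s • J x) (a • y, s • J y) (a • z, t • J z) (a • w, (-t) • J w) = 0 := by
  apply Complex.ext
  · simp only [cxR, s1 hT, s2 hT, s3 hT, s4 hT, Complex.zero_re]
    rw [hi, j1 hT hJ hi, j2 hT hJ hi, j3 hT hJ hi]
    linear_combination (T x y z w * (-t * t) - a * a * T x y (J z) (J w)) * hs -
      (a * a * T x y z w - a * a * T x y (J z) (J w)) * ht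
  · simp only [cxR, s1 hT, s2 hT, s3 hT, s4 hT, Complex.zero_im]
    have e1 : T x (J y) (J z) (J w) = - T (J x) y z w := by
      rw [← hi (J x) y z w, hJ.sq, n1 hT, neg_neg]
    have e2 : T (J x) y (J z) (J w) = - T x (J y) z w := by
      rw [← hi x (J y) z w, hJ.sq, n2 hT, neg_neg]
    have e3 : T (J x) (J y) z (J w) = - T x y (J z) w := by
      rw [← hi x y (J z) w, hJ.sq, n3 hT, neg_neg]
    have e4 : T (J x) (J y) (J z) w = - T x y z (J w) := by
      rw [← hi x y z (J w), hJ.sq, n4 hT, neg_neg]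
    rw [e1, e2, e3, e4]
    linear_combination (-a * s * (T x (J y) z w + T (J x) y z w)) * ht +
      (-a * t * (T x y z (J w) - T x y (J z) w)) * hs

/-- the combinations of the frame -/
lemma cmb_false {J : V →ₗ[ℝ] V} (hJ : HermJ J) (v : Fin 3 → V) (a : Fin 3 → ℂ) :
    (cmb (jf J v) false a).2 = -J (cmb (jf J v) false a).1 := by
  simp only [cmb, jf, map_sum, map_sub, map_smul, hJ.sq, ← Finset.sum_neg_distrib,
    Bool.false_eq_true, if_false]
  refine Finset.sum_congr rfl fun k _ => ?_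
  simp only [smul_neg, neg_smul]
  abel

lemma cmb_true {J : V →ₗ[ℝ] V} (hJ : HermJ J) (v : Fin 3 → V) (a : Fin 3 → ℂ) :
    (cmb (jf J v) true a).2 = J (cmb (jf J v) true a).1 := by
  simp only [cmb, jf, map_sum, map_sub, map_smul, hJ.sq, if_true]
  refine Finset.sum_congr rfl fun k _ => ?_
  simp only [smul_neg]
  abel

/-- the operator condition on families, in the invariant case -/
def AntiF (T : V → V → V → V → ℝ) (J : V →ₗ[ℝ] V) : Prop :=
  ∀ (n : ℕ) (a b : Fin n → V), ∑ k, ∑ l, (T (a k) (b k) (a l) (b l) -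
    T (a k) (b k) (J (a l)) (J (b l))) ≤ 0

/-- **`J`-invariant tensors satisfy the hypotheses of the general theorem.** -/
theorem jsplit {R : V → V → V → V → ℝ} (hR : AlgCurv R) {κ η : ℝ} {J : V →ₗ[ℝ] V} (hJ : HermJ J)
    (hi : JInv R J) (h1 : Bisec (shiftT R κ) J) (h2 : AntiF (shiftT R η) J) {v : Fin 3 → V}
    (hv : ∀ i j, inner ℝ (v i) (v j) = if i = j then (1 : ℝ) else 0)
    (hv' : ∀ i j, inner ℝ (v i) (J (v j)) = 0) : UnitarySplit R κ η (jf J v) := by
  refine ⟨jf_unit hJ hv hv', ?_, ?_, ?_⟩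
  · rintro ⟨i, s⟩ ⟨j, s'⟩ ⟨k, t⟩ ⟨l, t'⟩ hs ht
    obtain rfl : s = s' := hs
    have ht' : t' = !t := by cases t <;> cases t' <;> simp_all
    subst ht'
    have hsq : ∀ b : Bool, (if b then (√2)⁻¹ else -(√2)⁻¹ : ℝ) * (if b then (√2)⁻¹ else -(√2)⁻¹) =
        (√2)⁻¹ * (√2)⁻¹ := by
      intro b; cases b <;> simp
    have := split_core hR hJ hi (√2)⁻¹ (if s then (√2)⁻¹ else -(√2)⁻¹ : ℝ)
      (if t then (√2)⁻¹ else -(√2)⁻¹ : ℝ) (hsq s) (hsq t) (v i) (v j) (v k) (v l)
    have hneg : (if (!t) then (√2)⁻¹ else -(√2)⁻¹ : ℝ) =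
        -(if t then (√2)⁻¹ else -(√2)⁻¹ : ℝ) := by
      cases t <;> simp
    simp only [jf, hneg]
    exact this
  · intro a b
    have hT := shift_curv hR κ
    have hTi := shift_JInv hJ hi κ
    obtain ⟨T, hTdef⟩ : ∃ T, T = shiftT R κ := ⟨_, rfl⟩
    rw [← hTdef] at hT hTi h1 ⊢
    obtain ⟨x, hx⟩ : ∃ x, (cmb (jf J v) false a).1 = x := ⟨_, rfl⟩
    obtain ⟨y, hy⟩ : ∃ y, (cmb (jf J v) true b).1 = y := ⟨_, rfl⟩
    have hx2 := cmb_false hJ v a
    have hy2 := cmb_true hJ v b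
    rw [hx] at hx2
    rw [hy] at hy2
    unfold cxSec
    rw [hx2, hy2, hx, hy]
    have h := h1 x y
    simp only [n1 hT, n3 hT]
    have e1 : T (J x) (J y) (J x) (J y) = T x y x y := hTi _ _ _ _
    have e2 : T (J x) y (J x) y = T x (J y) x (J y) := j3 hT hJ hTi _ _ _ _
    have e3 : T x y (J x) (J y) - T x (J y) (J x) y = T x (J x) y (J y) := by
      have b1 := hT.bianchi x y (J x) (J y)
      have b2 := hT.anti x (J x) y (J y)
      have b3 : T y (J x) x (J y) = - T x (J y) (J x) y := by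
        rw [hT.anti, hT.pair]
      linarith
    linarith
  · intro n s a b
    have hT := shift_curv hR η
    have hTi := shift_JInv hJ hi η
    obtain ⟨T, hTdef⟩ : ∃ T, T = shiftT R η := ⟨_, rfl⟩
    rw [← hTdef] at hT hTi h2 ⊢
    obtain ⟨σ, hσ⟩ : ∃ σ : Fin n → ℝ, σ = fun k => if s k then 1 else -1 := ⟨_, rfl⟩
    have hσ1 : ∀ k, σ k * σ k = 1 := by
      intro k; rw [hσ]; dsimp only; split_ifs <;> norm_num
    have hc : ∀ k (a : Fin 3 → ℂ), (cmb (jf J v) (s k) a).2 =
        σ k • J (cmb (jf J v) (s k) a).1 := by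
      intro k a
      rw [hσ]
      dsimp only
      cases hs : s k
      · rw [cmb_false hJ v a]; simp
      · rw [cmb_true hJ v a]; simp
    obtain ⟨x, hx⟩ : ∃ x : Fin n → V, ∀ k, (cmb (jf J v) (s k) (a k)).1 = x k := ⟨_, fun _ => rfl⟩
    obtain ⟨y, hy⟩ : ∃ y : Fin n → V, ∀ k, (cmb (jf J v) (s k) (b k)).1 = y k := ⟨_, fun _ => rfl⟩
    have hA := h2 n x y
    have hB := h2 n x (fun k => σ k • J (y k))
    unfold cxOp
    simp only [hc, hx, hy]
    have e : (∑ k, ∑ l, (T (x k) (y k) (x l) (y l) -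
          T (x k) (y k) (σ l • J (x l)) (σ l • J (y l)) -
          T (σ k • J (x k)) (σ k • J (y k)) (x l) (y l) +
          T (σ k • J (x k)) (σ k • J (y k)) (σ l • J (x l)) (σ l • J (y l)))) +
        ∑ k, ∑ l, (T (x k) (σ k • J (y k)) (x l) (σ l • J (y l)) +
          T (x k) (σ k • J (y k)) (σ l • J (x l)) (y l) +
          T (σ k • J (x k)) (y k) (x l) (σ l • J (y l)) +
          T (σ k • J (x k)) (y k) (σ l • J (x l)) (y l)) =
        2 * ∑ k, ∑ l, (T (x k) (y k) (x l) (y l) - T (x k) (y k) (J (x l)) (J (y l))) +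
        2 * ∑ k, ∑ l, (T (x k) (σ k • J (y k)) (x l) (σ l • J (y l)) -
          T (x k) (σ k • J (y k)) (J (x l)) (J (σ l • J (y l)))) := by
      simp only [Finset.mul_sum, ← Finset.sum_add_distrib]
      refine Finset.sum_congr rfl fun k _ => Finset.sum_congr rfl fun l _ => ?_
      simp only [map_smul, hJ.sq, s1 hT, s2 hT, s3 hT, s4 hT, n4 hT]
      rw [hTi, j1 hT hJ hTi, j2 hT hJ hTi, j3 hT hJ hTi]
      linear_combination (T (x k) (y k) (x l) (y l) * (σ l * σ l) -
        T (x k) (y k) (J (x l)) (J (y l))) * hσ1 k +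
        (T (x k) (y k) (x l) (y l) - T (x k) (y k) (J (x l)) (J (y l))) * hσ1 l
    rw [e]
    linarith

end

end Pool.Agent.N256.UR
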