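import Pool.Agent.N256.UR.Geo

/-!
# The pointwise theorem for a unitary splitting
-/

set_option autoImplicit false

namespace Pool.Agent.N256.UR

open Finset MeasureTheory Module
open Pool.Agent.W666.GB Pool.Agent.TH598.GV Pool.Agent.R735.HA
open scoped ComplexConjugate ComplexOrder

section

variable {V : Type} [NormedAddCommGroup V] [InnerProductSpace ℝ V]

/-- `cxOp` on arbitrary finite families -/
noncomputable def cxOpQ (T : V → V → V → V → ℝ) {Q : Type} [Fintype Q] (z w : Q → V × V) : ℝ :=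
  (∑ k, ∑ l, (T (z k).1 (w k).1 (z l).1 (w l).1 - T (z k).1 (w k).1 (z l).2 (w l).2 -
      T (z k).2 (w k).2 (z l).1 (w l).1 + T (z k).2 (w k).2 (z l).2 (w l).2)) +
    ∑ k, ∑ l, (T (z k).1 (w k).2 (z l).1 (w l).2 + T (z k).1 (w k).2 (z l).2 (w l).1 +
      T (z k).2 (w k).1 (z l).1 (w l).2 + T (z k).2 (w k).1 (z l).2 (w l).1)

omit [NormedAddCommGroup V] [InnerProductSpace ℝ V] in
lemma cxOpQ_fin (T : V → V → V → V → ℝ) {Q : Type} [Fintype Q] (z w : Q → V × V) :
    ∃ c : Fin (Fintype.card Q) ≃ Q,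
      cxOpQ T z w = cxOp T (fun i => z (c i)) (fun i => w (c i)) := by
  classical
  obtain ⟨c⟩ : Nonempty (Fin (Fintype.card Q) ≃ Q) := ⟨(Fintype.equivFin Q).symm⟩
  refine ⟨c, ?_⟩
  have e1 : ∀ F : Q → Q → ℝ, ∑ k, ∑ l, F (c k) (c l) = ∑ k, ∑ l, F k l := by
    intro F
    rw [← Equiv.sum_comp c (fun k => ∑ l, F k l)]
    exact Finset.sum_congr rfl fun k _ => Equiv.sum_comp c (fun l => F (c k) l)
  unfold cxOpQ cxOp
  rw [← e1, ← e1 (fun k l => T (z k).1 (w k).2 (z l).1 (w l).2 +
    T (z k).1 (w k).2 (z l).2 (w l).1 +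
      T (z k).2 (w k).1 (z l).1 (w l).2 + T (z k).2 (w k).1 (z l).2 (w l).1)]

lemma inner_re (e : OrthonormalBasis J6 ℝ V) (c : ℂ) (p : V × V) :
    vc e (fun a => (c * co e p a).re) = c.re • p.1 - c.im • p.2 := by
  unfold vc co
  simp only [Complex.mul_re, sub_smul, Finset.sum_sub_distrib, mul_smul, ← Finset.smul_sum]
  have e1 : ∀ x : V, ∑ a, e.repr x a • e a = x := fun x => e.sum_repr x
  rw [e1, e1]

lemma inner_im (e : OrthonormalBasis J6 ℝ V) (c : ℂ) (p : V × V) :
    vc e (fun a => (c * co e p a).im) = c.re • p.2 + c.im • p.1 := by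
  unfold vc co
  simp only [Complex.mul_im, add_smul, Finset.sum_add_distrib, mul_smul, ← Finset.smul_sum]
  have e1 : ∀ x : V, ∑ a, e.repr x a • e a = x := fun x => e.sum_repr x
  rw [e1, e1]

lemma vc_sum {I Q : Type} [Fintype I] [Fintype Q] (e : I → V) (g : Q → I → ℝ) :
    vc e (fun a => ∑ q, g q a) = ∑ q, vc e (g q) := by
  unfold vc
  simp only [Finset.sum_smul]
  exact Finset.sum_comm

lemma vc_mulVec (e : OrthonormalBasis J6 ℝ V) (f : J6 → V × V) (z : J6 → ℂ) (s : Bool)
    (hz : ∀ k : Fin 3, z (k, !s) = 0) :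
    vc e (fun a => ((Mf e f).mulVec z a).re) = (cmb f s (fun k => z (k, s))).1 ∧
    vc e (fun a => ((Mf e f).mulVec z a).im) = (cmb f s (fun k => z (k, s))).2 := by
  have h1 : ∀ a, (Mf e f).mulVec z a = ∑ k : Fin 3, z (k, s) * co e (f (k, s)) a := by
    intro a
    unfold Matrix.mulVec dotProduct
    rw [Fintype.sum_prod_type]
    refine Finset.sum_congr rfl fun k _ => ?_
    rw [Fintype.sum_bool]
    cases s
    · have := hz k
      simp only [Bool.not_false] at this
      simp only [Mf, Matrix.of_apply, this]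
      ring
    · have := hz k
      simp only [Bool.not_true] at this
      simp only [Mf, Matrix.of_apply, this]
      ring
  constructor
  · simp only [h1, Complex.re_sum]
    rw [vc_sum]
    simp only [inner_re]
    rfl
  · simp only [h1, Complex.im_sum]
    rw [vc_sum]
    simp only [inner_im]
    rfl

/-- **Hopf sign, pointwise, general frame.** -/
theorem pointC (e : OrthonormalBasis (Fin 3 × Bool) ℝ V) {R : V → V → V → V → ℝ} (hR : AlgCurv R)
    {κ η : ℝ} (hκ : 0 ≤ κ) (hη : 0 ≤ η) {f : Fin 3 × Bool → V × V} (hf : UnitarySplit R κ η f) :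
    twoGB κ η ≤ (-1) ^ 3 * gbc e R := by
  classical
  obtain ⟨Rf, hRf⟩ : ∃ Rf : Fin 3 × Bool → Fin 3 × Bool → Fin 3 × Bool → Fin 3 × Bool → ℝ,
    Rf = fun i j k l => -R (e i) (e j) (e k) (e l) := ⟨_, rfl⟩
  have hpair : ∀ i j k l, Rf k l i j = Rf i j k l := fun i j k l => by
    simp only [hRf]; rw [hR.pair]
  have halt : ∀ i j k l, Rf j i k l = - Rf i j k l := fun i j k l => by
    simp only [hRf]; rw [hR.anti]
  have hHS : HS (fun a b c d => ((Rf a b c d : ℝ) : ℂ)) := by
    constructor
    · intro i j k l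
      rw [Complex.conj_ofReal, hpair]
    · intro i j k l
      rw [halt]; push_cast; ring
  have hT := shift_curv hR κ
  obtain ⟨T, hTdef⟩ : ∃ T, T = shiftT R κ := ⟨_, rfl⟩
  have hS := shift_curv hR η
  obtain ⟨S, hSdef⟩ : ∃ S, S = shiftT R η := ⟨_, rfl⟩
  have hbis := hf.bis
  have hop := hf.op
  rw [← hTdef] at hT hbis
  rw [← hSdef] at hS hop
  have hUU : (UU : Fin 3 × Bool → Fin 3 × Bool → Fin 3 × Bool →
      Fin 3 × Bool → ℂ) = fun a b c d => ((unitCurv a b c d : ℝ) : ℂ) := by
    funext a b c d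
    have e2 : ∀ (P : Prop) [Decidable P], (((if P then 1 else 0 : ℝ)) : ℂ) =
        if P then 1 else 0 := by
      intro P _
      split_ifs <;> simp
    simp only [UU, unitCurv]
    rw [Complex.ofReal_sub, Complex.ofReal_mul, Complex.ofReal_mul, e2, e2, e2, e2]
  have hcomp : ∀ i j k l, -T (e i) (e j) (e k) (e l) = Rf i j k l - κ * unitCurv i j k l := by
    intro i j k l
    have hin : ∀ i j, inner ℝ (e i) (e j) = if i = j then (1 : ℝ) else 0 := fun i j => by
      rw [e.inner_eq_ite]
    simp only [hTdef, shiftT, unitCurv, hin, hRf]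
    ring
  have hcompS : ∀ i j k l, -S (e i) (e j) (e k) (e l) = Rf i j k l - η * unitCurv i j k l := by
    intro i j k l
    have hin : ∀ i j, inner ℝ (e i) (e j) = if i = j then (1 : ℝ) else 0 := fun i j => by
      rw [e.inner_eq_ite]
    simp only [hSdef, shiftT, unitCurv, hin, hRf]
    ring
  have key := splitC (fun a b c d => ((Rf a b c d : ℝ) : ℂ)) hHS (Mf e f)
    (Mf_unit e f hf.unit) (fun i j k l h1 h2 => ?_) κ hκ η hη (fun z w hz hw => ?_)
    (fun p hp => ?_)
  · rw [Pool.Agent.TH828.J3423.GG_re] at key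
    have hsum : ∑ σ : Equiv.Perm (Fin 3 × Bool), ∑ τ : Equiv.Perm (Fin 3 × Bool),
          Pool.Agent.W666.GB.sn σ * Pool.Agent.W666.GB.sn τ *
            ∏ b : Fin 3, Rf (σ (b, false)) (σ (b, true)) (τ (b, false)) (τ (b, true)) =
        (-1) ^ 3 * ∑ σ : Equiv.Perm (Fin 3 × Bool),
          ∑ τ : Equiv.Perm (Fin 3 × Bool),
          ((Equiv.Perm.sign σ : ℤ) : ℝ) * ((Equiv.Perm.sign τ : ℤ) : ℝ) *
            ∏ b : Fin 3, R (e (σ (b, false))) (e (σ (b, true))) (e (τ (b, false)))
              (e (τ (b, true))) := by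
      simp only [hRf, Finset.prod_neg, Finset.mul_sum, Finset.card_univ, Fintype.card_fin,
        Pool.Agent.W666.GB.sn]
      refine Finset.sum_congr rfl fun σ _ => Finset.sum_congr rfl fun τ _ => by ring
    rw [hsum] at key
    have hπ := Real.pi_pos
    have hc : 0 < 1 / ((8 * Real.pi) ^ 3 * ((3 : ℕ).factorial : ℝ)) := by positivity
    have h1 := mul_le_mul_of_nonneg_left key hc.le
    have h2 : 1 / ((8 * Real.pi) ^ 3 * ((3 : ℕ).factorial : ℝ)) *
        (2 ^ 3 * ((2 * 3).factorial : ℝ) * ((2 * κ ^ 3 + 3 * (κ * η ^ 2)) / 5)) = twoGB κ η := by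
      unfold twoGB roundGB
      have h8 : (8 * Real.pi) ^ 3 = 2 ^ 3 * (4 * Real.pi) ^ 3 := by
        rw [← mul_pow]; ring
      rw [h8]
      field_simp
    rw [h2] at h1
    refine h1.trans (le_of_eq ?_)
    unfold gbc
    ring
  · -- the block condition
    rw [hRf, Hc_cx e hR, hf.split i j k l h1 h2, neg_zero]
  · -- complex sectional curvatures
    have hup : ∀ i j k l : Fin 3 × Bool, unitCurv k l i j = unitCurv i j k l := by
      intro i j k l
      have e1 : ∀ a b : Fin 3 × Bool, (if a = b then (1 : ℝ) else 0) =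
          if b = a then 1 else 0 := fun a b => by
        by_cases h : a = b
        · rw [if_pos h, if_pos h.symm]
        · rw [if_neg h, if_neg fun h' => h h'.symm]
      simp only [unitCurv]
      rw [e1 k i, e1 l j, e1 k j, e1 l i]
      ring
    obtain ⟨Z, hZ⟩ : ∃ Z, Z = (Mf e f).mulVec z := ⟨_, rfl⟩
    obtain ⟨W', hW⟩ : ∃ W', W' = (Mf e f).mulVec w := ⟨_, rfl⟩
    obtain ⟨z1, z2⟩ := vc_mulVec e f z false hz
    obtain ⟨w1, w2⟩ := vc_mulVec e f w true hw
    rw [← hZ] at z1 z2
    rw [← hW] at w1 w2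
    rw [← hZ, ← hW, hUU, Pool.Agent.TH828.J3423.re_qf _ hup, Pool.Agent.TH828.J3423.re_qf _ hpair]
    have hrq : ∀ a b c d : Fin 3 × Bool → ℝ,
        Pool.Agent.TH828.J3423.rq Rf a b c d - κ * Pool.Agent.TH828.J3423.rq unitCurv a b c d =
          -T (vc e a) (vc e b) (vc e c) (vc e d) := by
      intro a b c d
      rw [← rq_eq hT]
      unfold Pool.Agent.TH828.J3423.rq Pool.Agent.TH598.GV.rq
      simp only [hcomp, Finset.mul_sum, ← Finset.sum_sub_distrib]
      refine Finset.sum_congr rfl fun i _ => Finset.sum_congr rfl fun j _ =>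
        Finset.sum_congr rfl fun k _ => Finset.sum_congr rfl fun l _ => by ring
    have h1 := hrq (fun a => (Z a).re) (fun a => (W' a).re) (fun a => (Z a).re) (fun a => (W' a).re)
    have h2 := hrq (fun a => (Z a).im) (fun a => (W' a).im) (fun a => (Z a).im) (fun a => (W' a).im)
    have h3 := hrq (fun a => (Z a).re) (fun a => (W' a).im) (fun a => (Z a).re) (fun a => (W' a).im)
    have h4 := hrq (fun a => (Z a).im) (fun a => (W' a).re) (fun a => (Z a).im) (fun a => (W' a).re)
    have h5 := hrq (fun a => (Z a).re) (fun a => (W' a).re) (fun a => (Z a).im) (fun a => (W' a).im)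
    have h6 := hrq (fun a => (Z a).re) (fun a => (W' a).im) (fun a => (Z a).im) (fun a => (W' a).re)
    have h7 := hbis (fun k => z (k, false)) (fun k => w (k, true))
    unfold cxSec at h7
    rw [← z1, ← z2, ← w1, ← w2] at h7
    linarith
  · -- the operator condition
    obtain ⟨M, hM⟩ : ∃ M, M = Mf e f := ⟨_, rfl⟩
    -- families
    obtain ⟨zc, hzc⟩ : ∃ zc : J6 × J6 → J6 → ℂ, ∀ q a, zc q a = p q.1 q.2 * co e (f q.1) a :=
      ⟨_, fun _ _ => rfl⟩
    obtain ⟨wc, hwc⟩ : ∃ wc : J6 × J6 → J6 → ℂ, ∀ q a, wc q a =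
        (if q.1.2 = q.2.2 then 1 else 0) * co e (f q.2) a := ⟨_, fun _ _ => rfl⟩
    obtain ⟨zv, hzv⟩ : ∃ zv : J6 × J6 → V × V, ∀ q, zv q =
        (vc e (fun a => (zc q a).re), vc e (fun a => (zc q a).im)) := ⟨_, fun _ => rfl⟩
    obtain ⟨wv, hwv⟩ : ∃ wv : J6 × J6 → V × V, ∀ q, wv q =
        (vc e (fun a => (wc q a).re), vc e (fun a => (wc q a).im)) := ⟨_, fun _ => rfl⟩
    have hz' : ∀ q, zv q = cmb f q.1.2 (Pi.single q.1.1 (p q.1 q.2)) := by
      intro q
      rw [hzv]
      simp only [hzc, inner_re, inner_im]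
      unfold cmb
      rw [Finset.sum_eq_single q.1.1, Finset.sum_eq_single q.1.1]
      · simp
      · intro b _ hb; simp [hb]
      · intro h; exact absurd (Finset.mem_univ _) h
      · intro b _ hb; simp [hb]
      · intro h; exact absurd (Finset.mem_univ _) h
    have hw' : ∀ q, wv q = cmb f q.1.2 (Pi.single q.2.1 (if q.1.2 = q.2.2 then 1 else 0)) := by
      intro q
      rw [hwv]
      simp only [hwc, inner_re, inner_im]
      unfold cmb
      rw [Finset.sum_eq_single q.2.1, Finset.sum_eq_single q.2.1]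
      · by_cases h : q.1.2 = q.2.2
        · simp [h]
        · simp [h]
      · intro b _ hb; simp [hb]
      · intro h; exact absurd (Finset.mem_univ _) h
      · intro b _ hb; simp [hb]
      · intro h; exact absurd (Finset.mem_univ _) h
    have h1 : cxOpQ S zv wv ≤ 0 := by
      obtain ⟨c, hc⟩ := cxOpQ_fin S zv wv
      rw [hc]
      simp only [hz', hw']
      exact hop _ (fun i => (c i).1.2) (fun i => Pi.single (c i).1.1 (p (c i).1 (c i).2))
        (fun i => Pi.single (c i).2.1 (if (c i).1.2 = (c i).2.2 then 1 else 0))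
    have harr : (fun a b => ∑ x : J6 × J6, p x.1 x.2 * (Mf e f a x.1 * Mf e f b x.2)) =
        fun a b => ∑ q : J6 × J6, zc q a * wc q b := by
      funext a b
      refine Finset.sum_congr rfl fun q _ => ?_
      rw [hzc, hwc]
      by_cases h : q.1.2 = q.2.2
      · rw [if_pos h]
        simp only [Mf, Matrix.of_apply]
        ring
      · rw [hp _ _ h]
        ring
    rw [harr]
    have h2 : ∀ (S' : J6 → J6 → J6 → J6 → ℝ),
        (Sf (fun a b c d => ((S' a b c d : ℝ) : ℂ)) (fun a b => ∑ q : J6 × J6, zc q a * wc q b)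
        (fun a b => ∑ q, zc q a * wc q b)).re =
        Pool.Agent.TH828.J3423.QQ S' (fun a b => (∑ q, zc q a * wc q b).re)
          (fun a b => (∑ q, zc q a * wc q b).re) +
        Pool.Agent.TH828.J3423.QQ S' (fun a b => (∑ q, zc q a * wc q b).im)
          (fun a b => (∑ q, zc q a * wc q b).im) := fun S' =>
      Pool.Agent.TH828.J3423.re_herm S' (fun a b => ∑ q, zc q a * wc q b)
    have h3 : (fun a b => (∑ q, zc q a * wc q b).re) = fun a b => ∑ q, ((zc q a).re * (wc q b).re +
        (-1) * ((zc q a).im * (wc q b).im)) := by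
      funext a b
      rw [Complex.re_sum]
      exact Finset.sum_congr rfl fun q _ => by rw [Complex.mul_re]; ring
    have h4 : (fun a b => (∑ q, zc q a * wc q b).im) = fun a b => ∑ q, ((zc q a).re * (wc q b).im +
        1 * ((zc q a).im * (wc q b).re)) := by
      funext a b
      rw [Complex.im_sum]
      exact Finset.sum_congr rfl fun q _ => by rw [Complex.mul_im]; ring
    have h5 : ∀ a b c d : J6 → ℝ, Pool.Agent.TH598.GV.rq Rf a b c d -
        η * Pool.Agent.TH598.GV.rq unitCurv a b c d =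
        -S (vc e a) (vc e b) (vc e c) (vc e d) := by
      intro a b c d
      rw [← rq_eq hS]
      unfold Pool.Agent.TH598.GV.rq
      simp only [hcompS, Finset.mul_sum, ← Finset.sum_sub_distrib]
      refine Finset.sum_congr rfl fun i _ => Finset.sum_congr rfl fun j _ =>
        Finset.sum_congr rfl fun k _ => Finset.sum_congr rfl fun l _ => by ring
    rw [hUU, h2, h2, h3, h4, QQ_fam Rf (-1), QQ_fam Rf 1, QQ_fam unitCurv (-1),
      QQ_fam unitCurv 1]
    have h6 : cxOpQ S zv wv = -((∑ q, ∑ q', ((Pool.Agent.TH598.GV.rq Rf (fun a => (zc q a).re)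
        (fun a => (wc q a).re) (fun a => (zc q' a).re) (fun a => (wc q' a).re) +
        (-1) * Pool.Agent.TH598.GV.rq Rf (fun a => (zc q a).re) (fun a => (wc q a).re)
          (fun a => (zc q' a).im) (fun a => (wc q' a).im) +
        (-1) * Pool.Agent.TH598.GV.rq Rf (fun a => (zc q a).im) (fun a => (wc q a).im)
          (fun a => (zc q' a).re) (fun a => (wc q' a).re) +
        (-1) * (-1) * Pool.Agent.TH598.GV.rq Rf (fun a => (zc q a).im) (fun a => (wc q a).im)
          (fun a => (zc q' a).im) (fun a => (wc q' a).im)) -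
        η * (Pool.Agent.TH598.GV.rq unitCurv (fun a => (zc q a).re)
        (fun a => (wc q a).re) (fun a => (zc q' a).re) (fun a => (wc q' a).re) +
        (-1) * Pool.Agent.TH598.GV.rq unitCurv (fun a => (zc q a).re) (fun a => (wc q a).re)
          (fun a => (zc q' a).im) (fun a => (wc q' a).im) +
        (-1) * Pool.Agent.TH598.GV.rq unitCurv (fun a => (zc q a).im) (fun a => (wc q a).im)
          (fun a => (zc q' a).re) (fun a => (wc q' a).re) +
        (-1) * (-1) * Pool.Agent.TH598.GV.rq unitCurv (fun a => (zc q a).im)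
          (fun a => (wc q a).im) (fun a => (zc q' a).im) (fun a => (wc q' a).im)))) +
        ∑ q, ∑ q', ((Pool.Agent.TH598.GV.rq Rf (fun a => (zc q a).re)
        (fun a => (wc q a).im) (fun a => (zc q' a).re) (fun a => (wc q' a).im) +
        1 * Pool.Agent.TH598.GV.rq Rf (fun a => (zc q a).re) (fun a => (wc q a).im)
          (fun a => (zc q' a).im) (fun a => (wc q' a).re) +
        1 * Pool.Agent.TH598.GV.rq Rf (fun a => (zc q a).im) (fun a => (wc q a).re)
          (fun a => (zc q' a).re) (fun a => (wc q' a).im) +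
        1 * 1 * Pool.Agent.TH598.GV.rq Rf (fun a => (zc q a).im) (fun a => (wc q a).re)
          (fun a => (zc q' a).im) (fun a => (wc q' a).re)) -
        η * (Pool.Agent.TH598.GV.rq unitCurv (fun a => (zc q a).re)
        (fun a => (wc q a).im) (fun a => (zc q' a).re) (fun a => (wc q' a).im) +
        1 * Pool.Agent.TH598.GV.rq unitCurv (fun a => (zc q a).re) (fun a => (wc q a).im)
          (fun a => (zc q' a).im) (fun a => (wc q' a).re) +
        1 * Pool.Agent.TH598.GV.rq unitCurv (fun a => (zc q a).im) (fun a => (wc q a).re)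
          (fun a => (zc q' a).re) (fun a => (wc q' a).im) +
        1 * 1 * Pool.Agent.TH598.GV.rq unitCurv (fun a => (zc q a).im)
          (fun a => (wc q a).re) (fun a => (zc q' a).im) (fun a => (wc q' a).re)))) := by
      unfold cxOpQ
      rw [← Finset.sum_add_distrib, ← Finset.sum_add_distrib, ← Finset.sum_neg_distrib]
      refine Finset.sum_congr rfl fun q _ => ?_
      rw [← Finset.sum_add_distrib, ← Finset.sum_add_distrib, ← Finset.sum_neg_distrib]
      refine Finset.sum_congr rfl fun q' _ => ?_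
      rw [hzv, hwv, hzv, hwv]
      have t := fun a b c d => h5 a b c d
      linear_combination t (fun a => (zc q a).re) (fun a => (wc q a).re)
          (fun a => (zc q' a).re) (fun a => (wc q' a).re) -
        t (fun a => (zc q a).re) (fun a => (wc q a).re)
          (fun a => (zc q' a).im) (fun a => (wc q' a).im) -
        t (fun a => (zc q a).im) (fun a => (wc q a).im)
          (fun a => (zc q' a).re) (fun a => (wc q' a).re) +
        t (fun a => (zc q a).im) (fun a => (wc q a).im)
          (fun a => (zc q' a).im) (fun a => (wc q' a).im) +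
        t (fun a => (zc q a).re) (fun a => (wc q a).im)
          (fun a => (zc q' a).re) (fun a => (wc q' a).im) +
        t (fun a => (zc q a).re) (fun a => (wc q a).im)
          (fun a => (zc q' a).im) (fun a => (wc q' a).re) +
        t (fun a => (zc q a).im) (fun a => (wc q a).re)
          (fun a => (zc q' a).re) (fun a => (wc q' a).im) +
        t (fun a => (zc q a).im) (fun a => (wc q a).re)
          (fun a => (zc q' a).im) (fun a => (wc q' a).re)
    rw [h6] at h1
    simp only [Finset.sum_sub_distrib, ← Finset.mul_sum] at h1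
    linarith

end

end Pool.Agent.N256.UR
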