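import Pool.Agent.N256.UR.Comb3
import Pool.Agent.R735.HA.Frame

/-!
# Positivity of the two parts
-/

set_option autoImplicit false

namespace Pool.Agent.N256.UR

open Finset MeasureTheory Pool.Agent.TH598.GV Pool.Agent.R735.HA H864R3
open Pool.Agent.TH991.J3417 (int_sum)
open scoped ComplexConjugate ComplexOrder

section wick

variable {C : Type} [Fintype C] [DecidableEq C]

/-- coefficients of a product of two linear forms, symmetrised -/
noncomputable def pq (u v : C → ℂ) (c : Fin 2 → C) : ℂ := u (c 0) * v (c 1) + u (c 1) * v (c 0)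

omit [DecidableEq C] in
lemma sum_two (F : (Fin 2 → C) → ℂ) : ∑ c, F c = ∑ x, ∑ y, F ![x, y] := by
  rw [← Fintype.sum_prod_type (f := fun p : C × C => F ![p.1, p.2])]
  refine Fintype.sum_equiv (finTwoArrowEquiv C) _ _ fun c => ?_
  congr 1
  funext i
  fin_cases i <;> rfl

omit [Fintype C] [DecidableEq C] in
lemma pq_symm (u v : C → ℂ) (π : Equiv.Perm (Fin 2)) (c : Fin 2 → C) :
    pq u v (c ∘ π) = pq u v c := by
  have h : π = 1 ∨ π = Equiv.swap 0 1 := by revert π; decide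
  rcases h with rfl | rfl
  · rfl
  · simp only [pq, Function.comp_apply, Equiv.swap_apply_left, Equiv.swap_apply_right]
    ring

lemma pq_sum (u v : C → ℂ) (ξ : C → ℂ) :
    ∑ c, pq u v c * ∏ i, ξ (c i) = 2 * ((∑ x, u x * ξ x) * ∑ y, v y * ξ y) := by
  rw [sum_two, Finset.sum_mul_sum]
  simp only [Fin.prod_univ_two, pq, Matrix.cons_val_zero, Matrix.cons_val_one]
  have h : ∀ x y : C, (u x * v y + u y * v x) * (ξ x * ξ y) =
      (u x * ξ x) * (v y * ξ y) + (u y * ξ y) * (v x * ξ x) := fun x y => by ring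
  simp only [h, Finset.sum_add_distrib]
  rw [two_mul]
  congr 1
  rw [Finset.sum_comm]

lemma pq_inner (u v u' v' : C → ℂ) :
    ∑ c, pq u v c * conj (pq u' v' c) =
      2 * ((∑ x, u x * conj (u' x)) * (∑ y, v y * conj (v' y)) +
        (∑ x, u x * conj (v' x)) * (∑ y, v y * conj (u' y))) := by
  rw [sum_two]
  simp only [pq, Matrix.cons_val_zero, Matrix.cons_val_one, map_add, map_mul]
  have h : ∀ x y : C, (u x * v y + u y * v x) *
      (conj (u' x) * conj (v' y) + conj (u' y) * conj (v' x)) =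
      ((u x * conj (u' x)) * (v y * conj (v' y)) + (u y * conj (u' y)) * (v x * conj (v' x))) +
      ((u x * conj (v' x)) * (v y * conj (u' y)) + (u y * conj (v' y)) * (v x * conj (u' x))) :=
    fun x y => by ring
  simp only [h, Finset.sum_add_distrib]
  rw [Finset.sum_mul_sum, Finset.sum_mul_sum, two_mul]
  rw [Finset.sum_comm (f := fun x y => (u y * conj (u' y)) * (v x * conj (v' x))),
    Finset.sum_comm (f := fun x y => (u y * conj (v' y)) * (v x * conj (u' x)))]
  ring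

lemma wick2 (u v u' v' : C → ℂ) :
    (Real.pi : ℂ) ^ Fintype.card C * ((∑ x, u x * conj (u' x)) * (∑ y, v y * conj (v' y)) +
        (∑ x, u x * conj (v' x)) * (∑ y, v y * conj (u' y))) =
      ∫ ξ : C → ℂ, ((∑ x, u x * ξ x) * ∑ y, v y * ξ y) *
        conj ((∑ x, u' x * ξ x) * ∑ y, v' y * ξ y) * (gw ξ : ℂ) := by
  have h := Pool.Agent.TH914.GVC.wick 2 (pq u v) (pq u' v') (pq_symm u v) (pq_symm u' v')
  simp only [pq_sum, pq_inner] at h
  have h2 : ∫ ξ : C → ℂ, (2 * ((∑ x, u x * ξ x) * ∑ y, v y * ξ y)) *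
        conj (2 * ((∑ x, u' x * ξ x) * ∑ y, v' y * ξ y)) * (gw ξ : ℂ) =
      (4 : ℂ) * ∫ ξ : C → ℂ, ((∑ x, u x * ξ x) * ∑ y, v y * ξ y) *
        conj ((∑ x, u' x * ξ x) * ∑ y, v' y * ξ y) * (gw ξ : ℂ) := by
    rw [← integral_const_mul]
    refine integral_congr_ae (Filter.Eventually.of_forall fun ξ => ?_)
    have h3 : (starRingEnd ℂ) (2 : ℂ) = 2 := Complex.conj_ofNat 2
    simp only [map_mul, h3]
    ring
  rw [h2] at h
  have h4 : ((2 : ℕ).factorial : ℂ) = 2 := by norm_num [Nat.factorial]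
  rw [h4] at h
  linear_combination (-(1 : ℂ) / 4) * h

lemma int2 (u v u' v' : C → ℂ) :
    Integrable (fun ξ : C → ℂ => ((∑ x, u x * ξ x) * ∑ y, v y * ξ y) *
        conj ((∑ x, u' x * ξ x) * ∑ y, v' y * ξ y) * (gw ξ : ℂ)) := by
  have h := int_sum (pq u v) (pq u' v')
  simp only [pq_sum] at h
  have h2 := h.const_mul ((4 : ℂ)⁻¹)
  refine h2.congr (Filter.Eventually.of_forall fun ξ => ?_)
  have h3 : (starRingEnd ℂ) (2 : ℂ) = 2 := Complex.conj_ofNat 2
  simp only [map_mul, h3]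
  ring

end wick

/-- the values of the mixed block -/
noncomputable def hv (h : Fin 3 → Fin 3 → Matrix (Fin 3) (Fin 3) ℂ) (z w : Fin 3 → ℂ) : ℂ :=
  ∑ i, ∑ a, ∑ j, ∑ b, h i j a b * (z i * w a * conj (z j) * conj (w b))

lemma hv_mul (h : Fin 3 → Fin 3 → Matrix (Fin 3) (Fin 3) ℂ) (z w : Fin 3 → ℂ) (g : ℂ) :
    hv h z w * g = ∑ i, ∑ a, ∑ j, ∑ b, h i j a b * ((z i * w a) * conj (z j * w b) * g) := by
  unfold hv
  simp only [Finset.sum_mul, map_mul]
  refine Finset.sum_congr rfl fun i _ => Finset.sum_congr rfl fun a _ =>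
    Finset.sum_congr rfl fun j _ => Finset.sum_congr rfl fun b _ => by ring

/-- **positivity of the second part** -/
lemma SS_nonneg (h : Fin 3 → Fin 3 → Matrix (Fin 3) (Fin 3) ℂ)
    (hh : ∀ z w : Fin 3 → ℂ, 0 ≤ (hv h z w).re) (κ : J6 → J6 → ℂ) (L : J6 → J6 → ℂ)
    (hκ : ∀ k l, κ k l = ∑ c, L k c * conj (L l c)) : 0 ≤ (SS h κ).re := by
  have hπ : (0 : ℝ) < Real.pi ^ Fintype.card J6 := by positivity
  have key : ((Real.pi ^ Fintype.card J6 : ℝ) : ℂ) * SS h κ =
      ∫ ξ : J6 → ℂ, hv h (fun i => ∑ c, L (i, false) c * ξ c) (fun a => ∑ c, L (a, true) c * ξ c) *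
        (gw ξ : ℂ) := by
    have e1 : ∀ ξ : J6 → ℂ, hv h (fun i => ∑ c, L (i, false) c * ξ c)
        (fun a => ∑ c, L (a, true) c * ξ c) * (gw ξ : ℂ) =
        ∑ i, ∑ a, ∑ j, ∑ b, h i j a b * (((∑ x, L (i, false) x * ξ x) * ∑ y, L (a, true) y * ξ y) *
        conj ((∑ x, L (j, false) x * ξ x) * ∑ y, L (b, true) y * ξ y) * (gw ξ : ℂ)) := by
      intro ξ
      exact hv_mul h _ _ _
    have hI : ∀ i a j b, Integrable (fun ξ : J6 → ℂ => h i j a b *
        (((∑ x, L (i, false) x * ξ x) * ∑ y, L (a, true) y * ξ y) *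
        conj ((∑ x, L (j, false) x * ξ x) * ∑ y, L (b, true) y * ξ y) * (gw ξ : ℂ))) :=
      fun i a j b => (int2 _ _ _ _).const_mul _
    simp only [e1]
    rw [integral_finsetSum _ (fun i _ => integrable_finsetSum _ fun a _ =>
      integrable_finsetSum _ fun j _ => integrable_finsetSum _ fun b _ => hI i a j b)]
    unfold SS
    rw [Finset.mul_sum]
    refine Finset.sum_congr rfl fun i _ => ?_
    rw [integral_finsetSum _ (fun a _ =>
      integrable_finsetSum _ fun j _ => integrable_finsetSum _ fun b _ => hI i a j b),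
      Finset.mul_sum]
    refine Finset.sum_congr rfl fun a _ => ?_
    rw [integral_finsetSum _ (fun j _ => integrable_finsetSum _ fun b _ => hI i a j b),
      Finset.mul_sum]
    refine Finset.sum_congr rfl fun j _ => ?_
    rw [integral_finsetSum _ (fun b _ => hI i a j b), Finset.mul_sum]
    refine Finset.sum_congr rfl fun b _ => ?_
    rw [integral_const_mul, ← wick2, hκ, hκ, hκ, hκ]
    push_cast
    ring
  have h2 : 0 ≤ (((Real.pi ^ Fintype.card J6 : ℝ) : ℂ) * SS h κ).re := by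
    rw [key]
    have e2 : Integrable (fun ξ : J6 → ℂ => hv h (fun i => ∑ c, L (i, false) c * ξ c)
        (fun a => ∑ c, L (a, true) c * ξ c) * (gw ξ : ℂ)) := by
      have e1 : ∀ ξ : J6 → ℂ, hv h (fun i => ∑ c, L (i, false) c * ξ c)
        (fun a => ∑ c, L (a, true) c * ξ c) * (gw ξ : ℂ) =
        ∑ i, ∑ a, ∑ j, ∑ b, h i j a b * (((∑ x, L (i, false) x * ξ x) * ∑ y, L (a, true) y * ξ y) *
        conj ((∑ x, L (j, false) x * ξ x) * ∑ y, L (b, true) y * ξ y) * (gw ξ : ℂ)) := by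
        intro ξ
        exact hv_mul h _ _ _
      simp only [e1]
      exact integrable_finsetSum _ fun i _ => integrable_finsetSum _ fun a _ =>
        integrable_finsetSum _ fun j _ => integrable_finsetSum _ fun b _ =>
          (int2 _ _ _ _).const_mul _
    have e3 : (∫ ξ : J6 → ℂ, hv h (fun i => ∑ c, L (i, false) c * ξ c)
        (fun a => ∑ c, L (a, true) c * ξ c) * (gw ξ : ℂ)).re =
        ∫ ξ : J6 → ℂ, (hv h (fun i => ∑ c, L (i, false) c * ξ c)
        (fun a => ∑ c, L (a, true) c * ξ c) * (gw ξ : ℂ)).re := (integral_re e2).symm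
    rw [e3]
    refine integral_nonneg fun ξ => ?_
    change 0 ≤ (hv h _ _ * (gw ξ : ℂ)).re
    rw [Complex.re_mul_ofReal]
    exact mul_nonneg (hh _ _) (Real.exp_nonneg _)
  rw [Complex.re_ofReal_mul] at h2
  exact nonneg_of_mul_nonneg_right h2 hπ

end Pool.Agent.N256.UR
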