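import Pool.Agent.N256.UR.Comb3

/-!
# The double mixed discriminant of a shifted tensor
-/

set_option autoImplicit false

namespace Pool.Agent.N256.UR

open Finset H864R3
open scoped ComplexConjugate ComplexOrder

/-- the tensor with the index `p` on the left and `q` on the right split off -/
noncomputable def Bmin (B : Fin 3 → Fin 3 → Matrix (Fin 3) (Fin 3) ℂ) (p q : Fin 3)
    (i j : Fin 3) : Matrix (Fin 3) (Fin 3) ℂ :=
  Matrix.of fun a b => if i = p ∧ j = p ∧ a = q ∧ b = q then 1 else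
    if i = p ∨ j = p ∨ a = q ∨ b = q then 0 else B i j a b

/-- the shifted tensor -/
noncomputable def Bsh (B : Fin 3 → Fin 3 → Matrix (Fin 3) (Fin 3) ℂ) (δ : ℂ)
    (i j : Fin 3) : Matrix (Fin 3) (Fin 3) ℂ :=
  Matrix.of fun a b => B i j a b + (if i = j then (if a = b then δ else 0) else 0)

set_option maxHeartbeats 4000000 in
lemma Phi6_min (B : Fin 3 → Fin 3 → Matrix (Fin 3) (Fin 3) ℂ) (p q : Fin 3) :
    Phi6 (Bmin B p q) =
      (B (p + 1) (p + 1) (q + 1) (q + 1) * B (p + 2) (p + 2) (q + 2) (q + 2) +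
        B (p + 1) (p + 1) (q + 2) (q + 2) * B (p + 2) (p + 2) (q + 1) (q + 1) -
        B (p + 1) (p + 1) (q + 1) (q + 2) * B (p + 2) (p + 2) (q + 2) (q + 1) -
        B (p + 1) (p + 1) (q + 2) (q + 1) * B (p + 2) (p + 2) (q + 1) (q + 2)) -
      (B (p + 1) (p + 2) (q + 1) (q + 1) * B (p + 2) (p + 1) (q + 2) (q + 2) +
        B (p + 1) (p + 2) (q + 2) (q + 2) * B (p + 2) (p + 1) (q + 1) (q + 1) -
        B (p + 1) (p + 2) (q + 1) (q + 2) * B (p + 2) (p + 1) (q + 2) (q + 1) -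
        B (p + 1) (p + 2) (q + 2) (q + 1) * B (p + 2) (p + 1) (q + 1) (q + 2)) := by
  unfold Phi6
  simp only [sum_perm]
  fin_cases p <;> fin_cases q <;>
  simp [Bmin, Fin.prod_univ_three, Equiv.swap_apply_def] <;> ring

end Pool.Agent.N256.UR
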